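import Pool.Agent.H93.AB.Basic
import Pool.Agent.H60.AD.Lower
import Pool.Agent.H60.AD.Upper

/-!
# NoMad: countably many Borel sets never have a mad union below a set

`no_mad`: a union `⋃ n, M n` of countably many Borel sets is not mad.  By `parCard_le` (H60, with
`𝒜 = range M`, `UnionMad 𝒜`) there is a countable set `𝓡` of Borel sets such that no infinite `W` is almost
homogeneous for all of them.  But the sets `{W | W.Infinite ∧ AlmostHomog R W}` are open dense
(`almostHomog_of_borel`), and countably many open dense sets have a common member (build a decreasing sequence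
`W_n` with `W_n` in the `n`-th set, take an infinite pseudointersection as in `exists_pseudo`, use `down`).
Also `borel (ℕ → Bool) = MeasurableSpace.pi` (`BorelSpace.measurable_eq.symm`).

`no_mad_below`: `v` infinite, `M n` Borel families of infinite sets, the union almost disjoint, infinitely many
members of the union meet `v` in an infinite set.  Let `φ : ℕ → ℕ` enumerate `su v` increasingly
(`Nat.orderEmbeddingOfSet`, range `su v`).  `M' n := {x' | ∃ w ∈ M n, Hit w v ∧ x' = w ∘ φ}`: Borel, as injective
image of a Borel set (if `w ∘ φ = w' ∘ φ` is infinite then `w ∩ w' ∩ v` is infinite, so `w = w'`;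
`MeasurableSet.image_of_measurable_injOn`; `{w | Hit w v}` is Borel).  The `M' n` form an infinite almost disjoint
family of infinite sets.  It is not mad by `no_mad`: there is an infinite `z'` almost disjoint from all of its
members; `z := {φ k | k ∈ z'}` is an infinite subset of `v`; for `w ∈ M n`: if `Hit w v` then `w ∩ z` is the image
of `(w ∘ φ) ∩ z'`, finite; otherwise `w ∩ z ⊆ w ∩ v` is finite.
-/

namespace Pool.Agent.H93.AB

open Set

theorem no_mad (M : ℕ → Set R) (hM : ∀ n, MeasurableSet (M n))
    (hI : ∀ n, ∀ x ∈ M n, IsInf x) (hAD : ∀ m n, ∀ x ∈ M m, ∀ y ∈ M n, x ≠ y → AD x y)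
    (hinf : {w | ∃ n, w ∈ M n}.Infinite) :
    ∃ z, IsInf z ∧ ∀ n, ∀ w ∈ M n, AD w z := by
  sorry

theorem no_mad_below (M : ℕ → Set R) (hM : ∀ n, MeasurableSet (M n))
    (hI : ∀ n, ∀ x ∈ M n, IsInf x) (hAD : ∀ m n, ∀ x ∈ M m, ∀ y ∈ M n, x ≠ y → AD x y)
    (v : R) (hv : IsInf v) (hinf : {w | (∃ n, w ∈ M n) ∧ Hit w v}.Infinite) :
    ∃ z, IsInf z ∧ su z ⊆ su v ∧ ∀ n, ∀ w ∈ M n, AD w z := by
  sorry

end Pool.Agent.H93.AB
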