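import Pool.Agent.H93.AB.Om
import Pool.Agent.H93.AB.NoMad

/-!
# BSeq: the given mad family as a level; `ℵ₁ ≤ 𝔞_Borel`

`exists_B`: `aBorel` is attained (`borel_nonempty`, `csInf_mem`): `𝒜` with `#𝒜 = aBorel ≤ ℵ₁`, Borel members,
`UnionMad 𝒜`; `𝒜` is nonempty; a surjection `A : Om → 𝒜`.  `B β := A β \ ⋃_{β' < β} A β'` (countable union, `Om_cntb`):
Borel (`borel (ℕ → Bool) = MeasurableSpace.pi`: `BorelSpace.measurable_eq.symm`), pairwise disjoint, with the same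
union (least index).
`aleph1_le_aBorel`: `le_csInf borel_nonempty`; a family `𝒜` with `#𝒜 < ℵ₁` is countable, nonempty, `𝒜 = range M`,
against `no_mad` (`infinite` from `UnionMad.infinite`, `maximal`).
-/

namespace Pool.Agent.H93.AB

open Set

private theorem meas_of_borel {A : Set R}
    (hA : @MeasurableSet (ℕ → Bool) (borel (ℕ → Bool)) A) : MeasurableSet A := by
  have h : borel (ℕ → Bool) = (MeasurableSpace.pi : MeasurableSpace (ℕ → Bool)) :=
    (BorelSpace.measurable_eq (α := ℕ → Bool)).symm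
  rwa [h] at hA

private theorem nonempty_of_mad {𝒜 : Set (Set (ℕ → Bool))}
    (hmad : Pool.Agent.H60.AD.UnionMad 𝒜) : 𝒜.Nonempty := by
  obtain ⟨x, a, ha, _⟩ := hmad.infinite.nonempty
  exact ⟨a, ha⟩

theorem exists_B (ha : Pool.Agent.H60.AD.aBorel ≤ Cardinal.aleph 1) :
    ∃ B : Om → Set R, GoodLev B ∧ (∀ z, IsInf z → ∃ y ∈ un B, Hit y z) ∧ (un B).Infinite := by
  classical
  obtain ⟨𝒜, hcard, hB, hmad⟩ := csInf_mem Pool.Agent.H60.AD.borel_nonempty
  change Cardinal.mk 𝒜 = Pool.Agent.H60.AD.aBorel at hcard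
  have hle : Cardinal.mk 𝒜 ≤ Cardinal.mk Om := by
    rw [mk_Om, hcard]
    exact ha
  have hne : Nonempty 𝒜 := (nonempty_of_mad hmad).to_subtype
  obtain ⟨e⟩ := (Cardinal.le_def _ _).1 hle
  let A : Om → 𝒜 := Function.invFun e
  have hA : Function.Surjective A := Function.invFun_surjective e.injective
  let B : Om → Set R := fun β => (A β : Set R) \ ⋃ β' ∈ Set.Iio β, (A β' : Set R)
  have hun : un B = ⋃₀ 𝒜 := by
    ext x
    constructor
    · rintro ⟨β, hβ, _⟩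
      exact ⟨_, (A β).2, hβ⟩
    · rintro ⟨a, ha, hx⟩
      obtain ⟨β, hβ⟩ := hA ⟨a, ha⟩
      let s : Set Om := {β | x ∈ (A β : Set R)}
      have hs : s.Nonempty := ⟨β, by
        change x ∈ (A β : Set R)
        rw [hβ]
        exact hx⟩
      have hwf : WellFounded ((· < ·) : Om → Om → Prop) := wellFounded_lt
      refine ⟨hwf.min s hs, hwf.min_mem s hs, ?_⟩
      intro hc
      obtain ⟨β', hc⟩ := mem_iUnion.1 hc
      obtain ⟨hβ', hx'⟩ := mem_iUnion.1 hc
      exact hwf.not_lt_min (s := s) hx' hβ'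
  refine ⟨B, ⟨?_, ?_, ?_, ?_⟩, ?_, ?_⟩
  · intro β
    exact (meas_of_borel (hB _ (A β).2)).diff
      (MeasurableSet.biUnion (Om_cntb β) fun β' _ => meas_of_borel (hB _ (A β').2))
  · intro β β' x hx hx'
    rcases lt_trichotomy β β' with h | h | h
    · exact absurd (mem_iUnion.2 ⟨β, mem_iUnion.2 ⟨h, hx.1⟩⟩) hx'.2
    · exact h
    · exact absurd (mem_iUnion.2 ⟨β', mem_iUnion.2 ⟨h, hx'.1⟩⟩) hx.2
  · intro x hx
    rw [hun] at hx
    exact hmad.mem_infinite x hx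
  · intro x hx y hy hxy
    rw [hun] at hx hy
    exact hmad.almost_disjoint x hx y hy hxy
  · intro z hz
    obtain ⟨x, hx, h⟩ := hmad.maximal z hz
    exact ⟨x, by rw [hun]; exact hx, h⟩
  · rw [hun]
    exact hmad.infinite

theorem aleph1_le_aBorel : Cardinal.aleph 1 ≤ Pool.Agent.H60.AD.aBorel := by
  refine le_csInf Pool.Agent.H60.AD.borel_nonempty ?_
  rintro κ ⟨𝒜, rfl, hB, hmad⟩
  by_contra hlt
  rw [not_le] at hlt
  have hc : 𝒜.Countable := by
    rw [← Cardinal.le_aleph0_iff_set_countable]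
    have h1 : Cardinal.aleph 1 = Order.succ Cardinal.aleph0 := by
      rw [← Cardinal.succ_aleph0]
    rw [h1] at hlt
    exact Order.lt_succ_iff.1 hlt
  obtain ⟨M, hM⟩ := hc.exists_eq_range (nonempty_of_mad hmad)
  have hmem : ∀ n, M n ∈ 𝒜 := fun n => by rw [hM]; exact mem_range_self n
  have hun : {w | ∃ n, w ∈ M n} = ⋃₀ 𝒜 := by
    ext w
    constructor
    · rintro ⟨n, hn⟩
      exact ⟨M n, hmem n, hn⟩
    · rintro ⟨a, ha, hw⟩
      rw [hM] at ha
      obtain ⟨n, rfl⟩ := ha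
      exact ⟨n, hw⟩
  obtain ⟨z, hz, hAD⟩ := no_mad M (fun n => meas_of_borel (hB _ (hmem n)))
    (fun n x hx => hmad.mem_infinite x ⟨_, hmem n, hx⟩)
    (fun m n x hx y hy hxy => hmad.almost_disjoint x ⟨_, hmem m, hx⟩ y ⟨_, hmem n, hy⟩ hxy)
    (by rw [hun]; exact hmad.infinite)
  obtain ⟨x, hx, h⟩ := hmad.maximal z hz
  rw [← hun] at hx
  obtain ⟨n, hn⟩ := hx
  exact h (hAD n x hn)

end Pool.Agent.H93.AB
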