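import Pool.Agent.H93.AB.Defs

/-! Elementary facts about almost disjointness. -/

namespace Pool.Agent.H93.AB

open Set

theorem mem_su {x : R} {n : ℕ} : n ∈ su x ↔ x n = true := Iff.rfl

theorem su_mt (x y : R) : su (mt x y) = su x ∩ su y := by
  ext n
  simp [su, mt]

theorem su_inj {x y : R} (h : su x = su y) : x = y := by
  funext n
  have h1 : x n = true ↔ y n = true := by
    have := Set.ext_iff.1 h n
    exact this
  cases hx : x n <;> cases hy : y n <;> simp_all

theorem AD.symm {x y : R} (h : AD x y) : AD y x := by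
  unfold AD at *
  rwa [Set.inter_comm]

theorem Hit.symm {x y : R} (h : Hit x y) : Hit y x := by
  unfold Hit at *
  rwa [Set.inter_comm]

theorem not_hit {x y : R} : ¬ Hit x y ↔ AD x y := Set.not_infinite

theorem not_ad {x y : R} : ¬ AD x y ↔ Hit x y := Iff.rfl

theorem isInf_mt {x y : R} : IsInf (mt x y) ↔ Hit x y := by
  unfold IsInf Hit
  rw [su_mt]

theorem Hit.inf_left {x y : R} (h : Hit x y) : IsInf x := h.mono Set.inter_subset_left

theorem Hit.inf_right {x y : R} (h : Hit x y) : IsInf y := h.mono Set.inter_subset_right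

theorem Hit.mono_right {x y z : R} (h : Hit x y) (hyz : su y ⊆ su z) : Hit x z :=
  h.mono (Set.inter_subset_inter_right _ hyz)

theorem AD.mono_right {x y z : R} (h : AD x z) (hyz : su y ⊆ su z) : AD x y :=
  Set.Finite.subset h (Set.inter_subset_inter_right _ hyz)

theorem AS.refl (x : R) : AS x x := by simp [AS]

theorem AS.of_subset {x y : R} (h : su x ⊆ su y) : AS x y := by
  unfold AS
  rw [Set.sdiff_eq_empty.2 h]
  exact Set.finite_empty

theorem AS.trans {x y z : R} (h1 : AS x y) (h2 : AS y z) : AS x z := by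
  refine Set.Finite.subset (h1.union h2) ?_
  intro n hn
  by_cases hy : n ∈ su y
  · exact Or.inr ⟨hy, hn.2⟩
  · exact Or.inl ⟨hn.1, hy⟩

theorem AS.ad {w x e : R} (h : AS w x) (hx : AD x e) : AD w e := by
  refine Set.Finite.subset (h.union hx) ?_
  intro n hn
  by_cases hy : n ∈ su x
  · exact Or.inr ⟨hy, hn.2⟩
  · exact Or.inl ⟨hn.1, hy⟩

theorem AS.hit {w x z : R} (h : AS w x) (hw : Hit w z) : Hit x z := by
  by_contra hc
  exact hw (h.ad (not_hit.1 hc))

/-- If `w` is almost contained in `x` and meets `z`, then `w` meets `x ∩ z`. -/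
theorem AS.hit_mt {w x z : R} (h : AS w x) (hw : Hit w z) : Hit w (mt x z) := by
  unfold Hit
  rw [su_mt]
  intro hfin
  refine hw (Set.Finite.subset (h.union hfin) ?_)
  intro n hn
  by_cases hy : n ∈ su x
  · exact Or.inr ⟨hn.1, hy, hn.2⟩
  · exact Or.inl ⟨hn.1, hy⟩

theorem AS.inf_hit {w x : R} (h : AS w x) (hw : IsInf w) : Hit w x := by
  intro hfin
  refine hw (Set.Finite.subset (h.union hfin) ?_)
  intro n hn
  by_cases hy : n ∈ su x
  · exact Or.inr ⟨hn, hy⟩
  · exact Or.inl ⟨hn, hy⟩

/-- A decreasing sequence of infinite sets has an infinite pseudointersection. -/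
theorem exists_pseudo (z : ℕ → R) (hinf : ∀ n, IsInf (z n))
    (hdec : ∀ n, su (z (n + 1)) ⊆ su (z n)) :
    ∃ y, IsInf y ∧ su y ⊆ su (z 0) ∧ ∀ n, AS y (z n) := by
  have hmono : ∀ m n, m ≤ n → su (z n) ⊆ su (z m) := by
    intro m n hmn
    induction n, hmn using Nat.le_induction with
    | base => exact subset_rfl
    | succ n _ ih => exact (hdec n).trans ih
  have hex : ∀ n v, ∃ k, v < k ∧ k ∈ su (z n) := fun n v => by
    obtain ⟨k, hk, hv⟩ := (hinf n).exists_gt v
    exact ⟨k, hv, hk⟩
  choose g hg using hex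
  let a : ℕ → ℕ := fun n => Nat.rec (g 0 0) (fun n p => g (n + 1) p) n
  have ha0 : a 0 = g 0 0 := rfl
  have has : ∀ n, a (n + 1) = g (n + 1) (a n) := fun n => rfl
  have hmem : ∀ n, a n ∈ su (z n) := by
    intro n
    cases n with
    | zero => exact (hg 0 0).2
    | succ n => rw [has]; exact (hg (n + 1) (a n)).2
  have hlt : StrictMono a := strictMono_nat_of_lt_succ fun n => by
    rw [has]; exact (hg (n + 1) (a n)).1
  classical
  refine ⟨fun k => decide (k ∈ Set.range a), ?_, ?_, ?_⟩
  · have : su (fun k => decide (k ∈ Set.range a)) = Set.range a := by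
      ext k; simp [su]
    unfold IsInf
    rw [this]
    exact Set.infinite_range_of_injective hlt.injective
  · intro k hk
    have hk' : k ∈ Set.range a := by simpa [su] using hk
    obtain ⟨n, rfl⟩ := hk'
    exact hmono 0 n (Nat.zero_le _) (hmem n)
  · intro n
    refine Set.Finite.subset ((Set.finite_lt_nat n).image a) ?_
    rintro k ⟨hk, hk2⟩
    have hk' : k ∈ Set.range a := by simpa [su] using hk
    obtain ⟨i, rfl⟩ := hk'
    refine ⟨i, ?_, rfl⟩
    by_contra hcon
    exact hk2 (hmono n i (not_lt.1 hcon) (hmem i))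

section Levels

variable {Ω : Type} [LinearOrder Ω] [WellFoundedLT Ω] [Nonempty Ω]

set_option linter.unusedSectionVars false

theorem mem_ind {L : Ω → Set R} {x : R} (h : x ∈ un L) : x ∈ L (ind L x) :=
  Classical.epsilon_spec h

theorem ind_eq {L : Ω → Set R} (hL : GoodLev L) {x : R} {β : Ω} (h : x ∈ L β) : ind L x = β :=
  hL.disj _ _ x (mem_ind ⟨β, h⟩) h

theorem mem_un {L : Ω → Set R} {x : R} {β : Ω} (h : x ∈ L β) : x ∈ un L := ⟨β, h⟩

/-- Two members of a level that almost contain the same infinite set are equal. -/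
theorem GoodLev.unique {L : Ω → Set R} (hL : GoodLev L) {w x y : R} (hx : x ∈ un L)
    (hy : y ∈ un L) (hw : IsInf w) (h1 : AS w x) (h2 : AS w y) : x = y := by
  by_contra hne
  have h3 : AD w y := h1.ad (hL.ad x hx y hy hne)
  exact (h2.inf_hit hw) h3

/-- If `w` meets the member `x` and is almost contained in the member `y`, then `x = y`. -/
theorem GoodLev.eq_of_hit {L : Ω → Set R} (hL : GoodLev L) {w x y : R} (hx : x ∈ un L)
    (hy : y ∈ un L) (h1 : Hit w x) (h2 : AS w y) : x = y := by
  by_contra hne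
  exact h1 (h2.ad (hL.ad y hy x hx (Ne.symm hne)))

end Levels

theorem isCode_Kap {B : Set R} (h : ∃ κ, IsCode B κ) : IsCode B (Kap B) := by
  unfold Kap
  rw [dif_pos h]
  exact h.choose_spec

end Pool.Agent.H93.AB
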