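import Pool.Agent.H93.AB.Basic

/-!
# Code: every Borel set has a code function

`IsCode B κ`: `κ` is measurable, and if `X w ∈ B` for `𝓤`-almost all `w` and `κ (X w) i = f i` for
`𝓤`-almost all `w`, for every `i`, then there is `x ∈ B` with `κ x = f` and `X w k = x k` for
`𝓤`-almost all `w`, for every `k`.

Proof. Let `G B` mean: `MeasurableSet B ∧ ∃ κ, IsCode B κ`.
(1) `G B` for `B = {x | x k = b}` (in fact for closed `B`): `κ = 0`.  Every ultrafilter on `R` has for
`X : R → R` a limit: `x k :=` the value with `∀ᶠ w in 𝓤, X w k = x k`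
(`Ultrafilter.eventually_or`, or `Ultrafilter.em`; two cases `X w k = true`, `X w k = false`).
`x k = b` since `X w k = b` and `X w k = x k` hold almost surely (`Filter.Eventually.exists` of the
conjunction).  `f i = 0` in the same way.
(2) `G (⋂ n, B n)` if `G (B n)` for all `n : ℕ`: `κ x i := κ_n x i'` with `i = Nat.pair n i'`.
The limits `x_n` of all `n` are equal (both are the coordinatewise limit of `X w`).
(3) `G (⋃ n, B n)` if all `G (B n)` and the `B n` are pairwise disjoint: `κ x 0 := n` if `x ∈ B n`
(`0` if there is none), `κ x (i+1) := κ_n x i` for this `n` (`0` if there is none).  Measurable: preimages are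
countable unions of sets `B n ∩ κ_n⁻¹(..)`, and the rest.  `κ (X w) 0 = f 0 = n` and `X w ∈ ⋃ B` give
`X w ∈ B n` almost surely, then use the code of `B n`.
(4) The sets `B` with `G B` and `G Bᶜ` form a σ-algebra containing the sets `{x | x k = b}`:
complements clear; `⋂ B n` by (2), its complement `⋃ (B n)ᶜ` is the disjoint union of the sets
`(B n)ᶜ ∩ ⋂_{m < n} B m`, which have `G` by (2) (a finite intersection is a countable one with
repetitions, or with `univ`).
The σ-algebra of `ℕ → Bool` is `MeasurableSpace.pi`, generated by the sets `{x | x k = b}`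
(`MeasurableSpace.pi = ⨆ k, (⊤ : MeasurableSpace Bool).comap (fun x => x k)`; show `pi ≤ m'` for the
σ-algebra `m'` of (4) with `iSup_le` and `MeasurableSpace.comap_le_iff_le_map`: `{x | x k ∈ s}` for
`s : Set Bool` is one of `∅, univ, {x | x k = true}, {x | x k = false}`).
-/

namespace Pool.Agent.H93.AB

open Set

theorem exists_isCode {B : Set R} (hB : MeasurableSet B) : ∃ κ, IsCode B κ := by
  sorry

end Pool.Agent.H93.AB
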