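import Pool.Agent.H93.AB.Basic

/-!
# DDfin: the numbering `DD`

`DD cnt a β = max n (cnt (a n) β)` for the least `n` with `β ≤ a n` (`0` if there is none).

`DD_finite`: for `β < δ` there is `n` with `β ≤ lad δ n` (`Hyp.lad_cof`), the least one is `n(β)`, and
`DD ≤ v` gives `n(β) ≤ v` and `cnt (lad δ n(β)) β ≤ v`, `β ≤ lad δ n(β)`.  So the set is contained in
`⋃_{n ≤ v} {β | β ≤ lad δ n ∧ cnt (lad δ n) β ≤ v}`, finite by `Hyp.cnt_inj` (`Set.Finite.of_finite_image` /
`Set.Finite.of_injOn`, the image is in `Iic v`).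

`DDl_eq`: for `β ≤ lad δ K` the least `n` with `β ≤ a n` is `≤ K` for both sequences, and the sequences agree up to
`K` (`List.getD` of `(List.range (K+1)).map f` at `n ≤ K` is `f n`).
-/

namespace Pool.Agent.H93.AB

open Set

variable {Ω : Type} [LinearOrder Ω] [WellFoundedLT Ω] [Nonempty Ω] {P : Ctx Ω}

theorem DD_finite (hP : Hyp P) (δ : Ω) (n : ℕ) :
    {β | β ∈ Set.Iio δ ∧ DD P.cnt (P.lad δ) β ≤ n}.Finite := by
  classical
  have h1 : ∀ i : ℕ, {β | β ≤ P.lad δ i ∧ P.cnt (P.lad δ i) β ≤ n}.Finite := by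
    intro i
    refine Set.Finite.of_injOn (f := P.cnt (P.lad δ i)) (t := Set.Iic n) ?_ ?_
      (Set.finite_Iic n)
    · intro β hβ
      exact hβ.2
    · intro a ha b hb hab
      exact hP.cnt_inj _ ha.1 hb.1 hab
  refine ((Set.finite_Iic n).biUnion fun i _ => h1 i).subset ?_
  rintro β ⟨hβ, hD⟩
  have hex : ∃ m, β ≤ P.lad δ m := hP.lad_cof δ β hβ
  unfold DD at hD
  rw [dif_pos hex, max_le_iff] at hD
  exact Set.mem_biUnion (Set.mem_Iic.2 hD.1) ⟨Nat.find_spec hex, hD.2⟩

theorem DDl_eq (cnt : Ω → Ω → ℕ) (a : ℕ → Ω) (K : ℕ) {β : Ω} (h : β ≤ a K) :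
    DDl cnt ((List.range (K + 1)).map a) β = DD cnt a β := by
  classical
  have hag : ∀ n, n ≤ K →
      ((List.range (K + 1)).map a).getD n (Classical.arbitrary Ω) = a n := by
    intro n hn
    rw [List.getD_eq_getElem _ _ (by simp; omega)]
    simp
  have h1 : ∃ n, β ≤ a n := ⟨K, h⟩
  have h2 : ∃ n, β ≤ ((List.range (K + 1)).map a).getD n (Classical.arbitrary Ω) :=
    ⟨K, by rw [hag K le_rfl]; exact h⟩
  have h3 : Nat.find h1 ≤ K := Nat.find_min' h1 h
  have h4 : Nat.find h2 ≤ K := Nat.find_min' h2 (by rw [hag K le_rfl]; exact h)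
  have h5 : Nat.find h2 = Nat.find h1 := by
    apply le_antisymm
    · apply Nat.find_min'
      rw [hag _ h3]
      exact Nat.find_spec h1
    · apply Nat.find_min'
      have := Nat.find_spec h2
      rwa [hag _ h4] at this
  unfold DDl DD
  rw [dif_pos h2, dif_pos h1]
  have h6 : ((List.range (K + 1)).map a).getD (Nat.find h2) (Classical.arbitrary Ω)
      = a (Nat.find h1) := by
    rw [hag _ h4, h5]
  show max (Nat.find h2)
      (cnt (((List.range (K + 1)).map a).getD (Nat.find h2) (Classical.arbitrary Ω)) β) = _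
  rw [h6, h5]

end Pool.Agent.H93.AB
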