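import Mathlib

/-!
Definitions for the construction of a mad family which is a union of `ℵ₁` closed sets from a mad
family which is a union of `ℵ₁` Borel sets (under `𝔟 = 𝔰 = ℵ₁`).
-/

namespace Pool.Agent.H93.AB

open Set

/-- Subsets of `ℕ`, coded by their characteristic functions. -/
abbrev R := ℕ → Bool

/-- The set coded by `x`. -/
def su (x : R) : Set ℕ := {n | x n = true}

/-- `x` codes an infinite set. -/
def IsInf (x : R) : Prop := (su x).Infinite

/-- `x` and `y` are almost disjoint. -/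
def AD (x y : R) : Prop := (su x ∩ su y).Finite

/-- `x` is almost contained in `y`. -/
def AS (x y : R) : Prop := (su x \ su y).Finite

/-- `x` and `y` have infinite intersection. -/
def Hit (x y : R) : Prop := (su x ∩ su y).Infinite

/-- Intersection. -/
def mt (x y : R) : R := fun n => x n && y n

/-- `κ` is a code function for `B`: it is measurable, and an ultrafilter limit of codes of members
of `B` is the code of a member of `B`, to which the members converge. -/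
def IsCode (B : Set R) (κ : R → ℕ → ℕ) : Prop :=
  Measurable κ ∧ ∀ (𝓤 : Ultrafilter R) (X : R → R) (f : ℕ → ℕ), (∀ᶠ w in 𝓤, X w ∈ B) →
    (∀ i, ∀ᶠ w in 𝓤, κ (X w) i = f i) →
      ∃ x ∈ B, κ x = f ∧ ∀ k, ∀ᶠ w in 𝓤, X w k = x k

open Classical in
/-- A chosen code function of `B`. -/
noncomputable def Kap (B : Set R) : R → ℕ → ℕ :=
  if h : ∃ κ, IsCode B κ then h.choose else fun _ _ => 0

open Classical in
/-- The canonical closed-coded set of a path: `h` is the bounding function, `d m` the (number of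
the) index of the `m`-th member, `f m` its code and `x m` the member itself. -/
noncomputable def eset (h : ℕ → ℕ) (d : ℕ → ℕ) (f : ℕ → ℕ → ℕ) (x : ℕ → R) : R := fun k =>
  decide (∃ j, h j ≤ k ∧ k < h (j + 1) ∧
    (∀ m < j, (∀ m' < m, d m' ≤ j) → d m ≤ h (j + 1)) ∧
    (∀ m < j, (∀ m' ≤ m, d m' ≤ j) → (∀ i < j, f m i ≤ h (j + 1)) ∧ x m k = true))

/-- The side of the member `x m` of a path which is chosen by `t m`. -/
def tm (S : ℕ → R) (x : ℕ → R) (t : ℕ → Bool) (m : ℕ) : R := fun k => x m k && (S m k == t m)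

theorem col_aux (T : ℕ → R) (k : ℕ) : ∃ m, k ≤ m ∨ T m k = false := ⟨k, Or.inl le_rfl⟩

open Classical in
/-- The column of `k`: `0` inside `e`, otherwise one more than the first `m` with `k ≤ m` or
`k ∉ T m`. -/
noncomputable def col (e : R) (T : ℕ → R) (k : ℕ) : ℕ :=
  if e k = true then 0 else 1 + Nat.find (col_aux T k)

/-- The member of the next level given by `e`, the sets `T m` and the member `y` of the given mad
family. -/
noncomputable def wset (u : ℕ → ℕ → ℕ) (e : R) (T : ℕ → R) (y : R) : R :=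
  fun k => y (u (col e T k) k)

section Levels

variable {Ω : Type} [LinearOrder Ω] [WellFoundedLT Ω] [Nonempty Ω]

/-- The union of the pieces of a level. -/
def un (L : Ω → Set R) : Set R := {x | ∃ β, x ∈ L β}

/-- The index of the piece which contains `x`. -/
noncomputable def ind (L : Ω → Set R) (x : R) : Ω := Classical.epsilon fun β => x ∈ L β

/-- The code of the member `x` of a level. -/
noncomputable def kap (L : Ω → Set R) (x : R) : ℕ → ℕ := Kap (L (ind L x)) x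

/-- A level: Borel pieces, pairwise disjoint, the union is an almost disjoint family of infinite
sets. -/
structure GoodLev (L : Ω → Set R) : Prop where
  meas : ∀ β, MeasurableSet (L β)
  disj : ∀ β β' x, x ∈ L β → x ∈ L β' → β = β'
  inf : ∀ x ∈ un L, IsInf x
  ad : ∀ x ∈ un L, ∀ y ∈ un L, x ≠ y → AD x y

/-- The parameters of the construction. -/
structure Ctx (Ω : Type) where
  lad : Ω → ℕ → Ω
  cnt : Ω → Ω → ℕ
  h : Ω → ℕ → ℕ
  S : Ω → R
  B : Ω → Set R
  c : ℕ → R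
  u : ℕ → ℕ → ℕ

open Classical in
/-- The number of `β` along the sequence `a`. -/
noncomputable def DD (cnt : Ω → Ω → ℕ) (a : ℕ → Ω) (β : Ω) : ℕ :=
  if h : ∃ n, β ≤ a n then max (Nat.find h) (cnt (a (Nat.find h)) β) else 0

/-- The number of `β` along a finite sequence. -/
noncomputable def DDl (cnt : Ω → Ω → ℕ) (l : List Ω) (β : Ω) : ℕ :=
  DD cnt (fun n => l.getD n (Classical.arbitrary Ω)) β

open Classical in
/-- The set of the path `x` at stage `δ`, empty unless all indices are below `δ`. -/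
noncomputable def ee (P : Ctx Ω) (δ : Ω) (L : ℕ → Ω → Set R) (x : ℕ → R) : R :=
  if ∀ m, ind (L m) (x m) < δ then
    eset (P.h δ) (fun m => DD P.cnt (P.lad δ) (ind (L m) (x m))) (fun m => kap (L m) (x m)) x
  else fun _ => false

/-- The member of level `δ` given by a path, a choice of sides and a member of the given family. -/
noncomputable def ww (P : Ctx Ω) (δ : Ω) (L : ℕ → Ω → Set R) (x : ℕ → R) (t : ℕ → Bool) (y : R) :
    R :=
  wset P.u (ee P δ L x) (tm (fun m => P.S (P.lad δ m)) x t) y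

/-- All indices of the path `x` and of `y` are at most `β`. -/
def InT (P : Ctx Ω) (L : ℕ → Ω → Set R) (β : Ω) (x : ℕ → R) (y : R) : Prop :=
  (∀ m, ∃ β' ≤ β, x m ∈ L m β') ∧ (∃ α ≤ β, y ∈ P.B α) ∧ ∀ n, y ≠ P.c n

/-- The level `δ` in terms of the levels `L m` on its ladder. -/
def step (P : Ctx Ω) (δ : Ω) (L : ℕ → Ω → Set R) : Ω → Set R := fun β =>
  {w | IsInf w ∧ ∃ x t y, InT P L β x y ∧ (∀ β' < β, ¬ InT P L β' x y) ∧ w = ww P δ L x t y}

open Classical in
/-- The levels. -/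
noncomputable def N (P : Ctx Ω) : Ω → Ω → Set R :=
  WellFounded.fix (wellFounded_lt : WellFounded ((· < ·) : Ω → Ω → Prop)) fun δ ih =>
    if h : ∀ m, P.lad δ m < δ then step P δ (fun m => ih (P.lad δ m) (h m)) else P.B

theorem N_step (P : Ctx Ω) {δ : Ω} (h : ∀ m, P.lad δ m < δ) :
    N P δ = step P δ (fun m => N P (P.lad δ m)) := by
  rw [N, WellFounded.fix_eq, dif_pos h]

theorem N_base (P : Ctx Ω) {δ : Ω} (h : ¬ ∀ m, P.lad δ m < δ) : N P δ = P.B := by
  rw [N, WellFounded.fix_eq, dif_neg h]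

/-- The new closed families. -/
def EE (P : Ctx Ω) (δ : Ω) : Set R :=
  {w | IsInf w ∧ ∃ x : ℕ → R, (∀ m, x m ∈ un (N P (P.lad δ m))) ∧
    w = ee P δ (fun m => N P (P.lad δ m)) x}

/-- The hypotheses on the parameters. -/
structure Hyp (P : Ctx Ω) : Prop where
  cntb : ∀ a : Ω, (Set.Iio a).Countable
  ub : ∀ s : Set Ω, s.Countable → ∃ b, ∀ a ∈ s, a < b
  lad_lt : ∀ δ ζ : Ω, ζ < δ → ∀ m, P.lad δ m < δ
  lad_mono : ∀ δ, Monotone (P.lad δ)
  lad_cof : ∀ δ ζ : Ω, ζ < δ → ∃ m, ζ ≤ P.lad δ m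
  cnt_inj : ∀ ξ : Ω, Set.InjOn (P.cnt ξ) (Set.Iic ξ)
  h_strict : ∀ δ, StrictMono (P.h δ)
  h_mono : ∀ δ ε, δ < ε → ∃ n, ∀ k ≥ n, P.h δ k ≤ P.h ε k
  h_unb : ∀ g : ℕ → ℕ, ∃ δ, ∀ n, ∃ k ≥ n, g k < P.h δ k
  S_split : ∀ (ζ : Ω) (z : R), IsInf z → ∃ η, ζ ≤ η ∧ Hit z (P.S η) ∧ (su z \ su (P.S η)).Infinite
  B_good : GoodLev P.B
  B_max : ∀ z, IsInf z → ∃ y ∈ un P.B, Hit y z
  B_inf : (un P.B).Infinite
  u_inj : ∀ n k n' k', P.u n k = P.u n' k' → n = n' ∧ k = k'
  u_col : ∀ y ∈ un P.B, (∀ n, y ≠ P.c n) → ∀ n, {k | y (P.u n k) = true}.Finite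
  u_mad : ∀ (z : R) (q : ℕ → ℕ), IsInf z → (∀ n, {k | z k = true ∧ q k = n}.Finite) →
    ∃ y ∈ un P.B, (∀ n, y ≠ P.c n) ∧ {k | z k = true ∧ y (P.u (q k) k) = true}.Infinite

/-- The properties of level `δ` that are proved by induction. -/
structure Inv (P : Ctx Ω) (δ : Ω) : Prop where
  good : GoodLev (N P δ)
  ref : ∀ ζ < δ, ∀ w ∈ un (N P δ), ∃ x ∈ un (N P ζ), AS w x
  uns : ∀ η < δ, ∀ w ∈ un (N P δ),
    (su w ∩ su (P.S η)).Finite ∨ (su w \ su (P.S η)).Finite
  orth : ∀ ξ ≤ δ, ∀ e ∈ EE P ξ, ∀ w ∈ un (N P δ), AD w e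
  dens : ∀ z, IsInf z → (∀ ξ ≤ δ, ∀ e ∈ EE P ξ, AD e z) → ∃ w ∈ un (N P δ), Hit w z

/-- `z` is almost disjoint from all members of the new family. -/
def NH (P : Ctx Ω) (z : R) : Prop := ∀ ξ, ∀ e ∈ EE P ξ, AD e z

/-- Infinitely many members of level `lam` meet `v` in an infinite set. -/
def Rich (P : Ctx Ω) (v : R) (lam : Ω) : Prop := {w | w ∈ un (N P lam) ∧ Hit w v}.Infinite

/-- The requirements on the options at level `ζ` below `v`. -/
def OptSpec (P : Ctx Ω) (v : R) (ζ : Ω) (o : ℕ → R) : Prop :=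
  (∀ i, o i ∈ un (N P ζ) ∧ Hit (o i) v) ∧
  (Rich P v ζ → Function.Injective fun i => ind (N P ζ) (o i)) ∧
  (¬ Rich P v ζ → ∀ i lam, Rich P v lam → Rich P (mt v (o i)) lam)

open Classical in
/-- The options at level `ζ` below `v`. -/
noncomputable def opt (P : Ctx Ω) (v : R) (ζ : Ω) : ℕ → R :=
  if h : ∃ o, OptSpec P v ζ o then h.choose else fun _ _ => false

/-- The set reached by a finite path of options (the head of the list is the last step). -/
noncomputable def Z (P : Ctx Ω) (z : R) : List (Ω × ℕ) → R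
  | [] => z
  | a :: p => mt (Z P z p) (opt P (Z P z p) a.1 a.2)

/-- A bound for the codes of the members used by a finite path of options. -/
noncomputable def KK (P : Ctx Ω) (z : R) : List (Ω × ℕ) → ℕ → ℕ
  | [], _ => 0
  | a :: p, j => max (KK P z p j)
      ((Finset.range j).sup fun i => kap (N P a.1) (opt P (Z P z p) a.1 a.2) i)

/-- The function that has to be escaped by `h δ`. -/
noncomputable def GG (P : Ctx Ω) (z : R) (p : List (Ω × ℕ)) (ζ : Ω) (D : Ω → ℕ) (r : ℕ) : ℕ :=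
  sInf {g | (∃ i, r < D (ind (N P ζ) (opt P (Z P z p) ζ i)) ∧
      D (ind (N P ζ) (opt P (Z P z p) ζ i)) ≤ g) ∧
    (∃ k, r ≤ k ∧ k < g ∧ Z P z p k = true) ∧ KK P z p r ≤ g}

/-- A good stage for `z`. -/
structure GoodD (P : Ctx Ω) (z : R) (δ : Ω) : Prop where
  ne : ∃ ζ, ζ < δ
  lim : ∀ ζ < δ, ∃ ζ' < δ, ζ < ζ'
  rich : ∀ p : List (Ω × ℕ), (∀ a ∈ p, a.1 < δ) → ∃ lam < δ, Rich P (Z P z p) lam
  bd : ∀ p : List (Ω × ℕ), (∀ a ∈ p, a.1 < δ) → ∀ ζ < δ,
    ∃ β < δ, ∀ i, ind (N P ζ) (opt P (Z P z p) ζ i) ≤ β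
  esc : ∀ p : List (Ω × ℕ), (∀ a ∈ p, a.1 < δ) → ∀ ζ < δ, ∀ l : List Ω, (∀ a ∈ l, a < δ) →
    ∀ J, ∃ j ≥ J, GG P z p ζ (DDl P.cnt l) (P.h δ j) ≤ P.h δ (j + 1)

end Levels

end Pool.Agent.H93.AB
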