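import Pool.Agent.H93.AB.Basic

/-!
# ESet: elementary properties of `eset`

`k ∈ eset h d f x` iff for the block `j` of `k` (`h j ≤ k < h (j+1)`, unique since `h` is strictly
increasing):
* (announced) `∀ m < j, (∀ m' < m, d m' ≤ j) → d m ≤ h (j+1)`;
* (revealed) `∀ m < j, (∀ m' ≤ m, d m' ≤ j) → (∀ i < j, f m i ≤ h (j+1)) ∧ x m k = true`.

`eset_sub`: let `j0 = max (m + 1) (max_{m' ≤ m} d m')`.  If `k ≥ h j0` is in `eset`, its block is `j ≥ j0`,
so `m` is revealed and `x m k = true`.  So the difference is contained in `{k | k < h j0}`.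
`eset_congr`: the block of `k` is `j` on both sides (`StrictMono`), all data with index `< j` agree.
`measurable_eset`: coordinate `k`: a countable boolean combination of the measurable conditions
`d a m ≤ c`, `f a m i ≤ c`, `x a m k = true` (`measurable_pi_iff`; write `decide (..)` as
`if .. then true else false`; `MeasurableSet.iUnion`, `MeasurableSet.iInter`, `.imp`, `.inter`, ...;
`j` is fixed and determined by `k` only through conditions not depending on `a`).
-/

namespace Pool.Agent.H93.AB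

open Set

theorem eset_true {h d : ℕ → ℕ} {f : ℕ → ℕ → ℕ} {x : ℕ → R} {k : ℕ} :
    eset h d f x k = true ↔ ∃ j, h j ≤ k ∧ k < h (j + 1) ∧
      (∀ m < j, (∀ m' < m, d m' ≤ j) → d m ≤ h (j + 1)) ∧
      (∀ m < j, (∀ m' ≤ m, d m' ≤ j) → (∀ i < j, f m i ≤ h (j + 1)) ∧ x m k = true) := by
  unfold eset
  exact @decide_eq_true_iff _ (Classical.propDecidable _)

/-- The block of a number is unique. -/
theorem block_unique {h : ℕ → ℕ} (hh : StrictMono h) {j j' k : ℕ} (h1 : h j ≤ k)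
    (h2 : k < h (j + 1)) (h3 : h j' ≤ k) (h4 : k < h (j' + 1)) : j = j' := by
  sorry

theorem eset_sub {h : ℕ → ℕ} (hh : StrictMono h) (d : ℕ → ℕ) (f : ℕ → ℕ → ℕ) (x : ℕ → R) (m : ℕ) :
    AS (eset h d f x) (x m) := by
  sorry

theorem eset_congr {h : ℕ → ℕ} (hh : StrictMono h) {d d' : ℕ → ℕ} {f f' : ℕ → ℕ → ℕ}
    {x x' : ℕ → R} {j k : ℕ} (h1 : h j ≤ k) (h2 : k < h (j + 1)) (hd : ∀ m < j, d m = d' m)
    (hf : ∀ m < j, ∀ i < j, f m i = f' m i) (hx : ∀ m < j, x m k = x' m k) :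
    eset h d f x k = eset h d' f' x' k := by
  sorry

/-- an element of `eset` above `h j0` has block at least `j0` -/
theorem eset_block {h : ℕ → ℕ} (hh : StrictMono h) {d : ℕ → ℕ} {f : ℕ → ℕ → ℕ} {x : ℕ → R}
    {j0 k : ℕ} (hk : h j0 ≤ k) (he : eset h d f x k = true) :
    ∃ j, j0 ≤ j ∧ h j ≤ k ∧ k < h (j + 1) ∧
      (∀ m < j, (∀ m' < m, d m' ≤ j) → d m ≤ h (j + 1)) ∧
      (∀ m < j, (∀ m' ≤ m, d m' ≤ j) → (∀ i < j, f m i ≤ h (j + 1)) ∧ x m k = true) := by
  sorry

theorem measurable_eset {α : Type} [MeasurableSpace α] (h : ℕ → ℕ) {d : α → ℕ → ℕ}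
    {f : α → ℕ → ℕ → ℕ} {x : α → ℕ → R} (hd : ∀ m, Measurable fun a => d a m)
    (hf : ∀ m i, Measurable fun a => f a m i) (hx : ∀ m k, Measurable fun a => x a m k) :
    Measurable fun a => eset h (d a) (f a) (x a) := by
  sorry

end Pool.Agent.H93.AB
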