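import Pool.Agent.H93.AB.Code
import Pool.Agent.H93.AB.ESet

/-!
# EClosed: the sets `eset` of all paths form a closed subset of `[ω]^ω`

`L m` are levels (`GoodLev`), `I` a set of indices on which `D` is finite-to-one, `h` strictly increasing.
`E` = the set of all infinite `e x := eset h (D (ind (x m)))_m (kap (x m))_m x`, `x` a path (`x m ∈ un (L m)`)
with all indices in `I`.  Claim: `E = closure E ∩ IsInf`.

Proof. `⊆` clear.  Let `w0 ∈ closure E` be infinite.  There is an ultrafilter `𝓤` on `R` with `E ∈ 𝓤` and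
`𝓤 ≤ 𝓝 w0` (`mem_closure_iff_ultrafilter`).  Choose for every `e ∈ E` a path `X e : ℕ → R`
(arbitrary off `E`).  For every `k`: `∀ᶠ e in 𝓤, e k = w0 k` (the set `{e | e k = w0 k}` is open).

Claim A(m): `∃ β ∈ I, ∀ᶠ e in 𝓤, ind (L m) (X e m) = β`, by strong induction on `m`.  Let `β_{m'}`, `m' < m`, be
given, `d_{m'} = D β_{m'}`, `j0 = max (m+1) (max_{m' < m} d_{m'})`.  `w0` is infinite: there is `k ≥ h j0` with
`w0 k = true`.  The block of `k` is `j ≥ j0`.  For almost all `e`: `e ∈ E`, `e k = true`, so (`eset_block`, the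
block is `j` by `block_unique`) `m < j` is announced: `D (ind (X e m)) ≤ h (j+1)`.  So `ind (X e m)` is almost surely
in the finite set `{β ∈ I | D β ≤ h (j+1)}`, hence almost surely constant
(`Ultrafilter.eventually_exists_mem_iff` / `Ultrafilter.finite_biUnion_mem_iff`).

Claim B(m, i): `∃ c, ∀ᶠ e in 𝓤, kap (L m) (X e m) i = c`.  `j0 = max (m+1) (i+1) (max_{m' ≤ m} d_{m'})`, `k ≥ h j0` with
`w0 k = true`, block `j`; almost surely `m` is revealed: `kap (X e m) i ≤ h (j+1)`, finitely many values.

Let `f m i` be the constant of B.  Almost surely `X e m ∈ L m β_m` (`mem_ind`) and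
`kap (L m) (X e m) = Kap (L m β_m) (X e m)` (unfold `kap`).  By `isCode_Kap (exists_isCode (meas))` with the function
`w ↦ X w m`: there is `x m ∈ L m β_m` with `Kap (L m β_m) (x m) = f m` and `X e m k = x m k` almost surely.
`ind (L m) (x m) = β_m` by `ind_eq`.  Claim: `w0 = e x`.  Let `k : ℕ`.  If `k < h 0` both sides are `false` (no
block; for almost all `e`, `e k = false`).  Otherwise let `j` be the block of `k`.  For almost all `e`: `e k = w0 k`,
`e = eset .. (X e)`, and the data with indices `< j` agree with those of `x` (finitely many conditions: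
`Filter.eventually_all_finite` / `(Finset.range j)`), so `e k = (e x) k` by `eset_congr`.
-/

namespace Pool.Agent.H93.AB

open Set

theorem closed_of_paths {Ω : Type} [LinearOrder Ω] [WellFoundedLT Ω] [Nonempty Ω]
    (L : ℕ → Ω → Set R) (hL : ∀ m, GoodLev (L m)) (I : Set Ω) (D : Ω → ℕ)
    (hD : ∀ n, {β | β ∈ I ∧ D β ≤ n}.Finite) (h : ℕ → ℕ) (hh : StrictMono h) :
    ∃ C : Set R, IsClosed C ∧ {w : R | IsInf w ∧ ∃ x : ℕ → R, (∀ m, x m ∈ un (L m)) ∧
      (∀ m, ind (L m) (x m) ∈ I) ∧
      w = eset h (fun m => D (ind (L m) (x m))) (fun m => kap (L m) (x m)) x} =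
      C ∩ {w | IsInf w} := by
  classical
  set E : Set R := {w : R | IsInf w ∧ ∃ x : ℕ → R, (∀ m, x m ∈ un (L m)) ∧
      (∀ m, ind (L m) (x m) ∈ I) ∧
      w = eset h (fun m => D (ind (L m) (x m))) (fun m => kap (L m) (x m)) x} with hE
  refine ⟨closure E, isClosed_closure, ?_⟩
  apply Set.Subset.antisymm
  · intro w hw
    exact ⟨subset_closure hw, hw.1⟩
  rintro w0 ⟨hw0c, hw0i⟩
  have hw0i' : (su w0).Infinite := hw0i
  obtain ⟨U, hEU, hU⟩ := mem_closure_iff_ultrafilter.1 hw0c
  have hlim : ∀ k, ∀ᶠ e in (U : Filter R), e k = w0 k := by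
    intro k
    have h1 : Filter.Tendsto (fun e : R => e k) (U : Filter R) (nhds (w0 k)) :=
      ((continuous_apply k).tendsto w0).mono_left hU
    exact h1.eventually ((isOpen_discrete {w0 k}).mem_nhds rfl)
  have hEx : ∀ e ∈ E, ∃ x : ℕ → R, (∀ m, x m ∈ un (L m)) ∧
      (∀ m, ind (L m) (x m) ∈ I) ∧
      e = eset h (fun m => D (ind (L m) (x m))) (fun m => kap (L m) (x m)) x :=
    fun e he => he.2
  choose! X hX using hEx
  have hEv : ∀ᶠ e in (U : Filter R), e ∈ E := hEU
  -- claim A
  have hA : ∀ m, ∃ β, β ∈ I ∧ ∀ᶠ e in (U : Filter R), ind (L m) (X e m) = β := by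
    intro m
    induction m using Nat.strong_induction_on with
    | _ m ih =>
    have ih' : ∀ m', ∃ β, m' < m → ∀ᶠ e in (U : Filter R), ind (L m') (X e m') = β := by
      intro m'
      by_cases hm : m' < m
      · obtain ⟨β, _, hβ⟩ := ih m' hm
        exact ⟨β, fun _ => hβ⟩
      · exact ⟨Classical.arbitrary Ω, fun h => absurd h hm⟩
    choose b hb using ih'
    obtain ⟨k, hk1, hk2⟩ :=
      hw0i'.exists_gt (h (max (m + 1) ((Finset.range m).sup fun m' => D (b m'))))
    have hfin : {β | β ∈ I ∧ D β ≤ h (k + 1)}.Finite := hD _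
    have hall : ∀ᶠ e in (U : Filter R), ∀ m' ∈ Finset.range m, ind (L m') (X e m') = b m' :=
      (Filter.eventually_all_finset _).2 fun m' hm' => hb m' (Finset.mem_range.1 hm')
    have hmain : ∀ᶠ e in (U : Filter R), ∃ β ∈ {β | β ∈ I ∧ D β ≤ h (k + 1)},
        ind (L m) (X e m) = β := by
      filter_upwards [hEv, hlim k, hall] with e he hek hea
      obtain ⟨_, hx2, hx3⟩ := hX e he
      refine ⟨_, ⟨hx2 m, ?_⟩, rfl⟩
      have hek' : eset h (fun m => D (ind (L m) (X e m))) (fun m => kap (L m) (X e m)) (X e) k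
          = true := by
        rw [← hx3, hek]
        exact hk1
      obtain ⟨j, hj0, hj1, hj2, hann, _⟩ := eset_block hh hk2.le hek'
      have hmj : m < j := lt_of_lt_of_le (Nat.lt_succ_self m) ((le_max_left _ _).trans hj0)
      refine (hann m hmj ?_).trans (hh.monotone (Nat.succ_le_succ (hh.le_apply.trans hj1)))
      intro m' hm'
      show D (ind (L m') (X e m')) ≤ j
      rw [hea m' (Finset.mem_range.2 hm')]
      exact (Finset.le_sup (f := fun m' => D (b m')) (Finset.mem_range.2 hm')).trans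
        ((le_max_right _ _).trans hj0)
    obtain ⟨β, hβ, hβe⟩ := (Ultrafilter.eventually_exists_mem_iff hfin).1 hmain
    exact ⟨β, hβ.1, hβe⟩
  choose b hbI hb using hA
  -- claim B
  have hB : ∀ m i, ∃ c : ℕ, ∀ᶠ e in (U : Filter R), kap (L m) (X e m) i = c := by
    intro m i
    obtain ⟨k, hk1, hk2⟩ :=
      hw0i'.exists_gt (h (max (max (m + 1) (i + 1))
        ((Finset.range (m + 1)).sup fun m' => D (b m'))))
    have hall : ∀ᶠ e in (U : Filter R), ∀ m' ∈ Finset.range (m + 1),
        ind (L m') (X e m') = b m' :=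
      (Filter.eventually_all_finset _).2 fun m' _ => hb m'
    have hmain : ∀ᶠ e in (U : Filter R), ∃ c ∈ Set.Iic (h (k + 1)),
        kap (L m) (X e m) i = c := by
      filter_upwards [hEv, hlim k, hall] with e he hek hea
      obtain ⟨_, _, hx3⟩ := hX e he
      refine ⟨_, ?_, rfl⟩
      have hek' : eset h (fun m => D (ind (L m) (X e m))) (fun m => kap (L m) (X e m)) (X e) k
          = true := by
        rw [← hx3, hek]
        exact hk1
      obtain ⟨j, hj0, hj1, hj2, _, hrev⟩ := eset_block hh hk2.le hek'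
      have hmij : max (m + 1) (i + 1) ≤ j := (le_max_left _ _).trans hj0
      have hmj : m < j := lt_of_lt_of_le (Nat.lt_succ_self m) ((le_max_left _ _).trans hmij)
      have hij : i < j := lt_of_lt_of_le (Nat.lt_succ_self i) ((le_max_right _ _).trans hmij)
      refine ((hrev m hmj ?_).1 i hij).trans
        (hh.monotone (Nat.succ_le_succ (hh.le_apply.trans hj1)))
      intro m' hm'
      have hm'' : m' ∈ Finset.range (m + 1) := Finset.mem_range.2 (Nat.lt_succ_of_le hm')
      show D (ind (L m') (X e m')) ≤ j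
      rw [hea m' hm'']
      exact (Finset.le_sup (f := fun m' => D (b m')) hm'').trans
        ((le_max_right _ _).trans hj0)
    obtain ⟨c, _, hc⟩ := (Ultrafilter.eventually_exists_mem_iff (Set.finite_Iic _)).1 hmain
    exact ⟨c, hc⟩
  choose f hf using hB
  -- the limit path
  have hlimx : ∀ m, ∃ x ∈ L m (b m), Kap (L m (b m)) x = f m ∧
      ∀ k, ∀ᶠ e in (U : Filter R), X e m k = x k := by
    intro m
    refine (isCode_Kap (exists_isCode ((hL m).meas (b m)))).2 U (fun e => X e m) (f m) ?_ ?_
    · filter_upwards [hEv, hb m] with e he hbe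
      have := mem_ind ((hX e he).1 m)
      rwa [hbe] at this
    · intro i
      filter_upwards [hb m, hf m i] with e hbe hfe
      unfold kap at hfe
      rwa [hbe] at hfe
  choose x hxL hxK hxk using hlimx
  have hind : ∀ m, ind (L m) (x m) = b m := fun m => ind_eq (hL m) (hxL m)
  have hkap : ∀ m, kap (L m) (x m) = f m := by
    intro m
    unfold kap
    rw [hind m, hxK m]
  refine ⟨hw0i, x, fun m => mem_un (hxL m), fun m => ?_, ?_⟩
  · rw [hind m]
    exact hbI m
  funext k
  by_cases hk0 : k < h 0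
  · obtain ⟨e, he, hek⟩ := (hEv.and (hlim k)).exists
    have hno : ∀ (d : ℕ → ℕ) (g : ℕ → ℕ → ℕ) (y : ℕ → R), eset h d g y k = false := by
      intro d g y
      by_contra hc
      rw [Bool.not_eq_false] at hc
      obtain ⟨j, hj, _⟩ := eset_true.1 hc
      exact absurd hk0 (not_lt.2 ((hh.monotone (Nat.zero_le j)).trans hj))
    rw [hno, ← hek, (hX e he).2.2]
    exact hno _ _ _
  · have hex : ∃ n, k < h n := ⟨k + 1, lt_of_lt_of_le (Nat.lt_succ_self k) hh.le_apply⟩
    obtain ⟨j, hj⟩ : ∃ j, Nat.find hex = j + 1 := by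
      refine Nat.exists_eq_succ_of_ne_zero fun h0 => hk0 ?_
      have := Nat.find_spec hex
      rwa [h0] at this
    have hj2 : k < h (j + 1) := by
      have := Nat.find_spec hex
      rwa [hj] at this
    have hj1 : h j ≤ k := by
      have := Nat.find_min hex (m := j) (by omega)
      exact not_lt.1 this
    have e1 : ∀ᶠ e in (U : Filter R), ∀ m ∈ Finset.range j, ind (L m) (X e m) = b m :=
      (Filter.eventually_all_finset _).2 fun m _ => hb m
    have e2 : ∀ᶠ e in (U : Filter R), ∀ m ∈ Finset.range j, ∀ i ∈ Finset.range j,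
        kap (L m) (X e m) i = f m i :=
      (Filter.eventually_all_finset _).2 fun m _ =>
        (Filter.eventually_all_finset _).2 fun i _ => hf m i
    have e3 : ∀ᶠ e in (U : Filter R), ∀ m ∈ Finset.range j, X e m k = x m k :=
      (Filter.eventually_all_finset _).2 fun m _ => hxk m k
    obtain ⟨e, ⟨⟨⟨he, hek⟩, h1⟩, h2⟩, h3⟩ :=
      ((((hEv.and (hlim k)).and e1).and e2).and e3).exists
    have hcon : eset h (fun m => D (ind (L m) (X e m))) (fun m => kap (L m) (X e m)) (X e) k =
        eset h (fun m => D (ind (L m) (x m))) (fun m => kap (L m) (x m)) x k := by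
      refine eset_congr hh hj1 hj2 ?_ ?_ ?_
      · intro m hm
        show D (ind (L m) (X e m)) = D (ind (L m) (x m))
        rw [h1 m (Finset.mem_range.2 hm), hind m]
      · intro m hm i hi
        show kap (L m) (X e m) i = kap (L m) (x m) i
        rw [h2 m (Finset.mem_range.2 hm) i (Finset.mem_range.2 hi), hkap m]
      · intro m hm
        exact h3 m (Finset.mem_range.2 hm)
    rw [← hcon, ← hek]
    conv_lhs => rw [(hX e he).2.2]

end Pool.Agent.H93.AB
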