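import Pool.Agent.H93.AB.StepMem

/-!
# StepDense: the level `step P δ L` is predense

Build `z_m`, `x m`, `t m` by recursion: `z_0 = z`, all `z_m` infinite and `⊆ z`.  Given `z_m`: `hex` gives
`x m ∈ un (L m)` with infinite `z_m ∩ x m`; one of `z_m ∩ x m ∩ S`, `z_m ∩ x m \ S` (`S = P.S (P.lad δ m)`) is infinite:
this defines `t m`, and `z_{m+1}` is this set, so `z_{m+1} ⊆ tm .. x t m`.
`exists_pseudo`: infinite `z' ⊆ z` with `z' ⊆* z_m` for all `m`, so `z' ⊆* tm .. m`.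
`e := ee P δ L x` is almost disjoint from `z'` by `hE`.  By `cols_finite` and `Hyp.u_mad` with `q = col e T`
(`T = tm ..`) there is `y ∈ un P.B`, `y ≠ c n`, with `{k ∈ z' | y (u (col k) k)}` infinite: this set is
`z' ∩ ww P δ L x t y`.  So `ww ..` is infinite and meets `z`; `mem_un_step`.
-/

namespace Pool.Agent.H93.AB

open Set

variable {Ω : Type} [LinearOrder Ω] [WellFoundedLT Ω] [Nonempty Ω] {P : Ctx Ω}

theorem dense_step (hP : Hyp P) (δ : Ω) (L : ℕ → Ω → Set R) (z : R) (hz : IsInf z)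
    (hex : ∀ m, ∀ z', IsInf z' → su z' ⊆ su z → ∃ x ∈ un (L m), Hit x z')
    (hE : ∀ x : ℕ → R, (∀ m, x m ∈ un (L m)) → AD (ee P δ L x) z) :
    ∃ w ∈ un (step P δ L), Hit w z := by
  classical
  have hstep : ∀ (m : ℕ) (v : {v : R // IsInf v ∧ su v ⊆ su z}),
      ∃ q : R × Bool × {v : R // IsInf v ∧ su v ⊆ su z},
        q.1 ∈ un (L m) ∧ su q.2.2.1 ⊆ su v.1 ∧
          ∀ k, q.2.2.1 k = true → (q.1 k && (P.S (P.lad δ m) k == q.2.1)) = true := by
    intro m v
    obtain ⟨x, hx, hxv⟩ := hex m v.1 v.2.1 v.2.2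
    have hsplit : ∃ b : Bool, {k | k ∈ su x ∩ su v.1 ∧ P.S (P.lad δ m) k = b}.Infinite := by
      by_contra hcon
      push Not at hcon
      have h1 := hcon true
      have h2 := hcon false
      refine hxv ((h1.union h2).subset ?_)
      intro k hk
      cases hb : P.S (P.lad δ m) k
      · exact Or.inr ⟨hk, hb⟩
      · exact Or.inl ⟨hk, hb⟩
    obtain ⟨b, hb⟩ := hsplit
    let v' : R := fun k => decide (k ∈ su x ∩ su v.1 ∧ P.S (P.lad δ m) k = b)
    have hv' : su v' = {k | k ∈ su x ∩ su v.1 ∧ P.S (P.lad δ m) k = b} := by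
      ext k
      exact decide_eq_true_iff
    have hsub : su v' ⊆ su v.1 := by
      rw [hv']
      intro k hk
      exact hk.1.2
    refine ⟨(x, b, ⟨v', ?_, hsub.trans v.2.2⟩), hx, hsub, ?_⟩
    · unfold IsInf
      rw [hv']
      exact hb
    · intro k hk
      have hk' : k ∈ su v' := hk
      rw [hv'] at hk'
      have h1 : x k = true := hk'.1.1
      have h2 : P.S (P.lad δ m) k = b := hk'.2
      simp [h1, h2]
  choose Q hQ1 hQ2 hQ3 using hstep
  let g : ℕ → {v : R // IsInf v ∧ su v ⊆ su z} := fun n =>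
    Nat.rec ⟨z, hz, subset_rfl⟩ (fun m v => (Q m v).2.2) n
  have hg0 : (g 0).1 = z := rfl
  have hgs : ∀ m, g (m + 1) = (Q m (g m)).2.2 := fun m => rfl
  let x : ℕ → R := fun m => (Q m (g m)).1
  let t : ℕ → Bool := fun m => (Q m (g m)).2.1
  have hx : ∀ m, x m ∈ un (L m) := fun m => hQ1 m (g m)
  obtain ⟨z', hz'inf, hz'sub, hz'as⟩ := exists_pseudo (fun n => (g n).1) (fun n => (g n).2.1)
    (fun n => by
      show su (g (n + 1)).1 ⊆ su (g n).1
      rw [hgs]
      exact hQ2 n (g n))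
  have hz'z : su z' ⊆ su z := hz'sub
  have htm : ∀ m, AS z' (tm (fun m => P.S (P.lad δ m)) x t m) := by
    intro m
    refine (hz'as (m + 1)).trans (AS.of_subset ?_)
    intro k hk
    have hk' : (g (m + 1)).1 k = true := hk
    rw [hgs] at hk'
    exact hQ3 m (g m) k hk'
  have hAD : AD z' (ee P δ L x) := ((hE x hx).mono_right hz'z).symm
  obtain ⟨y, hy, hyc, hyinf⟩ := hP.u_mad z'
    (col (ee P δ L x) (tm (fun m => P.S (P.lad δ m)) x t)) hz'inf (cols_finite hAD htm)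
  have hhit : Hit (ww P δ L x t y) z := by
    refine hyinf.mono ?_
    intro k hk
    exact ⟨hk.2, hz'z hk.1⟩
  exact ⟨ww P δ L x t y, (mem_un_step hP δ L _).2 ⟨hhit.inf_left, x, t, y, hx, hy, hyc, rfl⟩, hhit⟩

end Pool.Agent.H93.AB
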