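import Pool.Agent.H93.AB.StepBorel
import Pool.Agent.H93.AB.StepDense

/-!
# Lev: the invariant holds for all levels

Strong induction on `δ` (`WellFounded.induction wellFounded_lt δ`).

Case 1: there is no `ζ < δ`.  Then `lad δ m < δ` fails for `m = 0`, so `N P δ = P.B` (`N_base`).  `good`, `dens`:
`Hyp.B_good`, `Hyp.B_max`.  `ref`, `uns`: no `ζ < δ`.  `orth`: `ξ ≤ δ` gives `ξ = δ`, and `ee P δ L x` is the empty set
(`ind .. < δ` is impossible), which is not infinite: `EE P δ = ∅`.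

Case 2: there is `ζ < δ`.  Then `lad δ m < δ` for all `m` (`Hyp.lad_lt`), `N P δ = step P δ L` with
`L m = N P (lad δ m)` (`N_step`), all `L m` satisfy the invariant.  Let `w ∈ un (N P δ)`, `w = ww P δ L x t y`
(`mem_un_step`).
* `good`: `meas_step`, `step_disj`, `step_ad`; members are infinite by definition.
* `ref`: `ζ < δ`; `m` with `ζ ≤ lad δ m` (`Hyp.lad_cof`).  `w ⊆* x m` (`ww_sub`); if `ζ = lad δ m` done, else `ref` of
  `lad δ m` and `AS.trans`.
* `uns`: `η < δ`; `m` with `η ≤ lad δ m`.  `η = lad δ m`: `ww_uns`.  `η < lad δ m`: `uns` of `lad δ m` for `x m`, and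
  `w ⊆* x m`.
* `orth`: `ξ ≤ δ`, `e ∈ EE P ξ`.  If `ξ < δ`: `m` with `ξ ≤ lad δ m`, `orth` of `lad δ m`: `AD (x m) e`, `AS.ad`.
  If `ξ = δ`: `e = ee P δ L x'`.  If `x' = x`: `ww_ad_e`.  Otherwise `x' m ≠ x m` for some `m`, `AD (x m) (x' m)`,
  `w ⊆* x m`, `e ⊆* x' m` (`ee_sub`).
* `dens`: `dense_step`: `hex` from `dens` of `lad δ m` for `z'` (`AD.mono_right`; `ξ ≤ lad δ m ≤ δ`), `hE`: the set
  `ee P δ L x` is finite (then `AD` is clear) or a member of `EE P δ`.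
-/

namespace Pool.Agent.H93.AB

open Set

variable {Ω : Type} [LinearOrder Ω] [WellFoundedLT Ω] [Nonempty Ω] {P : Ctx Ω}

theorem EE_min {δ : Ω} (h : ∀ ζ, ¬ ζ < δ) : EE P δ = ∅ := by
  rw [eq_empty_iff_forall_notMem]
  rintro w ⟨hw, x, -, rfl⟩
  apply hw
  have h1 : ee P δ (fun m => N P (P.lad δ m)) x = fun _ => false := by
    unfold ee
    rw [if_neg]
    intro hcon
    exact h _ (hcon 0)
  rw [h1]
  have h2 : su (fun _ => false) = ∅ := by
    ext n
    simp [su]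
  rw [h2]
  exact finite_empty

private theorem lev_base (hP : Hyp P) {δ : Ω} (h : ∀ ζ, ¬ ζ < δ) : Inv P δ := by
  have hN : N P δ = P.B := N_base P fun hcon => h _ (hcon 0)
  have hEE : ∀ ξ, ξ ≤ δ → EE P ξ = ∅ := fun ξ hξ =>
    EE_min fun ζ hζ => h ζ (lt_of_lt_of_le hζ hξ)
  refine ⟨?_, ?_, ?_, ?_, ?_⟩
  · rw [hN]
    exact hP.B_good
  · intro ζ hζ
    exact absurd hζ (h ζ)
  · intro ζ hζ
    exact absurd hζ (h ζ)
  · intro ξ hξ e he
    rw [hEE ξ hξ] at he
    exact absurd he (notMem_empty e)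
  · intro z hz _
    rw [hN]
    exact hP.B_max z hz

private theorem lev_step (hP : Hyp P) {δ : Ω} (hlt : ∀ m, P.lad δ m < δ)
    (hcof : ∀ ζ, ζ < δ → ∃ m, ζ ≤ P.lad δ m) (ih : ∀ m, Inv P (P.lad δ m)) : Inv P δ := by
  have hN : N P δ = step P δ (fun m => N P (P.lad δ m)) := N_step P hlt
  have hL : ∀ m, GoodLev ((fun m => N P (P.lad δ m)) m) := fun m => (ih m).good
  refine ⟨?_, ?_, ?_, ?_, ?_⟩
  · rw [hN]
    refine ⟨fun β => meas_step hP δ hL β, fun β β' x h h' => step_disj hP δ hL h h', ?_,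
      fun x hx y hy hne => step_ad hP δ hL hx hy hne⟩
    rintro x ⟨β, hβ⟩
    exact hβ.1
  · intro ζ hζ w hw
    rw [hN, mem_un_step hP] at hw
    obtain ⟨-, x, t, y, hx, hy, hc, rfl⟩ := hw
    obtain ⟨m, hm⟩ := hcof ζ hζ
    have h1 := ww_sub hP δ (fun m => N P (P.lad δ m)) x t hy hc m
    rcases hm.lt_or_eq with h2 | h2
    · obtain ⟨x', hx', h3⟩ := (ih m).ref ζ h2 (x m) (hx m)
      exact ⟨x', hx', h1.trans h3⟩
    · rw [h2]
      exact ⟨x m, hx m, h1⟩
  · intro η hη w hw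
    rw [hN, mem_un_step hP] at hw
    obtain ⟨-, x, t, y, hx, hy, hc, rfl⟩ := hw
    obtain ⟨m, hm⟩ := hcof η hη
    have h1 := ww_sub hP δ (fun m => N P (P.lad δ m)) x t hy hc m
    rcases hm.lt_or_eq with h2 | h2
    · rcases (ih m).uns η h2 (x m) (hx m) with h3 | h3
      · exact Or.inl (h1.ad h3)
      · exact Or.inr (h1.trans h3)
    · rw [h2]
      exact ww_uns hP δ (fun m => N P (P.lad δ m)) x t hy hc m
  · intro ξ hξ e he w hw
    rw [hN, mem_un_step hP] at hw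
    obtain ⟨-, x, t, y, hx, hy, hc, rfl⟩ := hw
    rcases hξ.lt_or_eq with h2 | h2
    · obtain ⟨m, hm⟩ := hcof ξ h2
      have h1 := ww_sub hP δ (fun m => N P (P.lad δ m)) x t hy hc m
      exact h1.ad ((ih m).orth ξ hm e he (x m) (hx m))
    · subst h2
      obtain ⟨-, x', hx', rfl⟩ := he
      by_cases hxx : x = x'
      · subst hxx
        exact ww_ad_e hP ξ (fun m => N P (P.lad ξ m)) x t hy hc
      · obtain ⟨m, hm⟩ := Function.ne_iff.1 hxx
        have h3 : AD (x m) (x' m) := (ih m).good.ad _ (hx m) _ (hx' m) hm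
        have h4 : AD (ww P ξ (fun m => N P (P.lad ξ m)) x t y) (x' m) :=
          (ww_sub hP ξ (fun m => N P (P.lad ξ m)) x t hy hc m).ad h3
        exact ((ee_sub hP ξ (fun m => N P (P.lad ξ m)) x' m).ad h4.symm).symm
  · intro z hz hE
    rw [hN]
    refine dense_step hP δ (fun m => N P (P.lad δ m)) z hz ?_ ?_
    · intro m z' hz' hsub
      exact (ih m).dens z' hz' fun ξ hξ e he =>
        AD.mono_right (hE ξ (hξ.trans (hlt m).le) e he) hsub
    · intro x hx
      by_cases hi : IsInf (ee P δ (fun m => N P (P.lad δ m)) x)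
      · exact hE δ le_rfl _ ⟨hi, x, hx, rfl⟩
      · exact (not_infinite.1 hi).subset inter_subset_left

theorem inv (hP : Hyp P) (δ : Ω) : Inv P δ := by
  induction δ using WellFoundedLT.induction with
  | ind δ ih =>
    by_cases h : ∃ ζ, ζ < δ
    · obtain ⟨ζ, hζ⟩ := h
      exact lev_step hP (hP.lad_lt δ ζ hζ) (fun ζ' hζ' => hP.lad_cof δ ζ' hζ')
        fun m => ih _ (hP.lad_lt δ ζ hζ m)
    · push Not at h
      exact lev_base hP fun ζ hζ => absurd hζ (not_lt.2 (h ζ))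

end Pool.Agent.H93.AB
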