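import Pool.Agent.H93.AB.EClosed
import Pool.Agent.H93.AB.Lev
import Pool.Agent.H93.AB.DDfin

/-!
# EFam: the new family

`EE_closed`: if there is no `ζ < δ` then `EE P δ = ∅` (`EE_min`), take `C = ∅`.  Otherwise
`closed_of_paths` with `L m = N P (lad δ m)` (`(inv hP _).good`), `I = Iio δ`, `D = DD P.cnt (P.lad δ)`
(`DD_finite`), `h = P.h δ`: the set in `closed_of_paths` is `EE P δ` (unfold `ee`: if not all indices are below `δ`
then `ee` is the empty set, which is not infinite).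

`EE_ad`: let `e ∈ EE P ξ`, `e' ∈ EE P δ`, `ξ ≤ δ` (by symmetry), `e' = ee P δ L x'`.  If `ξ < δ`: `m` with
`ξ ≤ lad δ m`; `(inv hP (lad δ m)).orth` gives `AD (x' m) e`, and `e' ⊆* x' m` (`ee_sub`).  If `ξ = δ`: `e = ee P δ L x`,
`e ≠ e'`, so `x m ≠ x' m` for some `m`, which are almost disjoint; `ee_sub` for both.

`EE_ref`: `e ∈ EE P δ` is almost contained in a member of `un P.B`.  `e` is infinite so `δ` is not minimal (`EE_min`);
`e ⊆* x 0 ∈ un (N P ζ)`, `ζ = lad δ 0`.  Let `a` be the least element of `Ω` (`WellFounded.min` of `univ`):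
`N P a = P.B` (`N_base`).  If `ζ = a` done, otherwise `ref` at `ζ`.

`EE_infinite`: suppose `U = {e | ∃ δ, e ∈ EE P δ}` is finite.  Choose for `e ∈ U` a `b e ∈ un P.B` with `e ⊆* b e`.
`un P.B` is infinite (`Hyp.B_inf`): there is `b ∈ un P.B` with `b ≠ b e` for all `e ∈ U`.  `b` is infinite and almost
disjoint from all `e ∈ U` (`AS.ad`), against `hmax`.
-/

namespace Pool.Agent.H93.AB

open Set

variable {Ω : Type} [LinearOrder Ω] [WellFoundedLT Ω] [Nonempty Ω] {P : Ctx Ω}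

theorem EE_closed (hP : Hyp P) (δ : Ω) : ∃ C : Set R, IsClosed C ∧ EE P δ = C ∩ {w | IsInf w} := by
  sorry

theorem EE_ad (hP : Hyp P) {ξ δ : Ω} {e e' : R} (he : e ∈ EE P ξ) (he' : e' ∈ EE P δ)
    (hne : e ≠ e') : AD e e' := by
  sorry

theorem EE_ref (hP : Hyp P) {δ : Ω} {e : R} (he : e ∈ EE P δ) : ∃ b ∈ un P.B, AS e b := by
  sorry

theorem EE_infinite (hP : Hyp P) (hmax : ∀ z, IsInf z → ∃ δ, ∃ e ∈ EE P δ, Hit e z) :
    {e | ∃ δ, e ∈ EE P δ}.Infinite := by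
  sorry

end Pool.Agent.H93.AB
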