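import Pool.Agent.H93.AB.Basic

/-!
# Esc: the escape property

Given `G : ℕ → ℕ`.  Let `G' n = max n (max_{i ≤ n} G i)` (monotone, `≥ G`, `G' n ≥ n`), and `g n = G'^[n] n`.
`Hyp.h_unb` for `g`: `δ0` with `g k < h δ0 k` for infinitely many `k`.  Let `δ ≥ δ0`.  By `Hyp.h_mono` also
`g k < h δ k` for infinitely many `k` (if `δ0 < δ` then `h δ0 k ≤ h δ k` for large `k`).  Suppose
`h δ (j+1) < G (h δ j)` for all `j ≥ J`.  Then `h δ (J + n) ≤ G'^[n] (h δ J)` for all `n` (induction, monotonicity).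
For `k ≥ J + h δ J`, `k = J + n`: `h δ k ≤ G'^[n] (h δ J) ≤ G'^[n] k ≤ G'^[k] k = g k` (`h δ J ≤ k`, `n ≤ k`,
iterates of a monotone function with `G' m ≥ m` increase).  Contradiction to `g k < h δ k` for infinitely many `k`.
-/

namespace Pool.Agent.H93.AB

open Set

variable {Ω : Type} [LinearOrder Ω] [WellFoundedLT Ω] [Nonempty Ω] {P : Ctx Ω}

theorem exists_escape (hP : Hyp P) (G : ℕ → ℕ) :
    ∃ δ0, ∀ δ ≥ δ0, ∀ J, ∃ j ≥ J, G (P.h δ j) ≤ P.h δ (j + 1) := by
  classical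
  set G' : ℕ → ℕ := fun n => max n ((Finset.range (n + 1)).sup G) with hG'
  have hmono : Monotone G' := by
    intro a b hab
    refine max_le_max hab (Finset.sup_mono ?_)
    intro x hx
    rw [Finset.mem_range] at hx ⊢
    omega
  have hid : (id : ℕ → ℕ) ≤ G' := fun n => le_max_left _ _
  have hGG : ∀ n, G n ≤ G' n := fun n =>
    (Finset.le_sup (f := G) (Finset.mem_range.2 (Nat.lt_succ_self n))).trans (le_max_right _ _)
  obtain ⟨δ0, hδ0⟩ := hP.h_unb fun n => G'^[n] n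
  refine ⟨δ0, fun δ hδ J => ?_⟩
  have hunb : ∀ n, ∃ k ≥ n, G'^[k] k < P.h δ k := by
    intro n
    rcases eq_or_lt_of_le hδ with h | h
    · obtain ⟨k, hk, hk2⟩ := hδ0 n
      exact ⟨k, hk, h ▸ hk2⟩
    · obtain ⟨n0, hn0⟩ := hP.h_mono δ0 δ h
      obtain ⟨k, hk, hk2⟩ := hδ0 (max n n0)
      exact ⟨k, (le_max_left _ _).trans hk,
        lt_of_lt_of_le hk2 (hn0 k ((le_max_right _ _).trans hk))⟩
  by_contra hcon
  push Not at hcon
  have hind : ∀ n, P.h δ (J + n) ≤ G'^[n] (P.h δ J) := by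
    intro n
    induction n with
    | zero => simp
    | succ n ih =>
      rw [Function.iterate_succ_apply', ← Nat.add_assoc]
      exact ((hcon (J + n) (Nat.le_add_right _ _)).le.trans (hGG _)).trans (hmono ih)
  obtain ⟨k, hk, hk2⟩ := hunb (J + P.h δ J)
  have hk' : k = J + (k - J) := by omega
  have h1 : P.h δ k ≤ G'^[k - J] (P.h δ J) := by
    have := hind (k - J)
    rwa [← hk'] at this
  have h2 : G'^[k - J] (P.h δ J) ≤ G'^[k - J] k := hmono.iterate _ (by omega)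
  have h3 : G'^[k - J] k ≤ G'^[k] k := Function.monotone_iterate_of_id_le hid (by omega) k
  exact absurd hk2 (not_lt.2 (h1.trans (h2.trans h3)))

end Pool.Agent.H93.AB
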