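import Pool.Agent.H93.AB.Om
import Pool.Agent.H60.AD.Defs

/-!
# HSeq: a well-ordered unbounded sequence of functions

`bCard` is the infimum of a nonempty set (the family of all functions is unbounded: for `g` take `g + 1`), so
(`csInf_mem`) there is `F` with `#F = bCard ≤ ℵ₁` such that every `g` has `f ∈ F` with `g n < f n` for infinitely many `n`.
`F` is nonempty; there is a surjection `Om → F` (`#F ≤ #Om`, `mk_Om`): `f_δ`.

`bound`: for countably many functions `f' : ℕ → (ℕ → ℕ)` there is a strictly increasing `h` with `f' i k ≤ h k` for all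
`k ≥ i`: `h k = k + Σ_{k' ≤ k} Σ_{i ≤ k'} f' i k'`.
Define `h δ` by well-founded recursion (`WellFounded.fix`) or prove the existence by a chosen function: for
`δ : Om` the set `Iio δ` is countable (`Om_cntb`), let `h δ` be a strictly increasing function which eventually bounds
all `h ε`, `ε < δ`, and is `≥ f_δ` eventually.  Then `h_unb`: for `g` there is `δ` with `g k < f_δ k ≤ h δ k`
infinitely often.
-/

namespace Pool.Agent.H93.AB

open Set

theorem exists_h (hb : Pool.Agent.H60.AD.bCard ≤ Cardinal.aleph 1) :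
    ∃ h : Om → ℕ → ℕ, (∀ δ, StrictMono (h δ)) ∧
      (∀ δ ε, δ < ε → ∃ n, ∀ k ≥ n, h δ k ≤ h ε k) ∧
      ∀ g : ℕ → ℕ, ∃ δ, ∀ n, ∃ k ≥ n, g k < h δ k := by
  sorry

end Pool.Agent.H93.AB
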