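import Pool.Agent.H93.AB.PSeq
import Pool.Agent.H93.AB.ESet

/-!
# PHit: the path hits `z`; the new family is maximal

`Z_path`: for `m' < m`: `Z P z (p m) k = true` implies `xx .. m' k = true` (and `z k = true`): induction on `m`,
`Z P z (p (m+1)) = mt (Z P z (p m)) (xx .. m)`.
`KK_path`: for `m' < m`, `i' < j`: `kap (N P (lad δ m')) (xx .. m') i' ≤ KK P z (p m) j` (induction on `m`,
`Finset.le_sup`).
`path_mem`: let `m` be a step with `Rich` and `j`, `k` from `IsPath.step`.  Then `ee P δ L (xx ..) k = true`: all indices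
are `< δ` (`IsPath.lt`), so `ee` is the `eset`; use `eset_true` with this `j`.
Announced, `m1 < j` with `d m' ≤ j` for all `m' < m1`: if `m1 < m` then `d m1 ≤ j ≤ h δ j ≤ h δ (j+1)`; if `m1 = m` it is
given; if `m1 > m` then `d m ≤ j`, contradiction to `j < d m`.
Revealed, `m1 < j` with `d m' ≤ j` for all `m' ≤ m1`: then `m1 < m` (as `j < d m`), use `KK_path` and `Z_path`.
`path_hits`: for every `n` there is `m ≥ n` with `Rich` (`path_rich`), `j ≥ m`, `k ≥ h δ j ≥ j ≥ n`, and `k ∈ ee ∩ z`.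
`EE_maximal`: otherwise `NH P z`; `exists_goodD`, `path_hits`, and the set `ee ..` is a member of `EE P δ`
(`Hit.inf_left`; `xx .. m ∈ un (N P (lad δ m))` by `optZ`).
-/

namespace Pool.Agent.H93.AB

open Set

variable {Ω : Type} [LinearOrder Ω] [WellFoundedLT Ω] [Nonempty Ω] {P : Ctx Ω}

theorem Z_path {z : R} {δ : Ω} {p : ℕ → List (Ω × ℕ)} {i : ℕ → ℕ} (h : IsPath P z δ p i)
    {m m' : ℕ} (hm : m' < m) {k : ℕ} (hk : Z P z (p m) k = true) : xx P z δ p i m' k = true := by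
  induction m with
  | zero => exact absurd hm (Nat.not_lt_zero _)
  | succ m ih =>
    have hs : Z P z (p (m + 1)) k = (Z P z (p m) k && xx P z δ p i m k) := by
      rw [h.succ]
      rfl
    rw [hs, Bool.and_eq_true] at hk
    rcases Nat.lt_succ_iff_lt_or_eq.1 hm with h1 | h1
    · exact ih h1 hk.1
    · subst h1
      exact hk.2

theorem KK_path {z : R} {δ : Ω} {p : ℕ → List (Ω × ℕ)} {i : ℕ → ℕ} (h : IsPath P z δ p i)
    {m m' : ℕ} (hm : m' < m) {i' j : ℕ} (hi : i' < j) :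
    kap (N P (P.lad δ m')) (xx P z δ p i m') i' ≤ KK P z (p m) j := by
  induction m with
  | zero => exact absurd hm (Nat.not_lt_zero _)
  | succ m ih =>
    have hs : KK P z (p (m + 1)) j = max (KK P z (p m) j)
        ((Finset.range j).sup fun a => kap (N P (P.lad δ m)) (xx P z δ p i m) a) := by
      rw [h.succ]
      rfl
    rw [hs]
    rcases Nat.lt_succ_iff_lt_or_eq.1 hm with h1 | h1
    · exact (ih h1).trans (le_max_left _ _)
    · subst h1
      exact (Finset.le_sup (f := fun a => kap (N P (P.lad δ m')) (xx P z δ p i m') a)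
        (Finset.mem_range.2 hi)).trans (le_max_right _ _)

private theorem Z_le {z : R} (l : List (Ω × ℕ)) {k : ℕ} (hk : Z P z l k = true) : z k = true := by
  induction l with
  | nil => exact hk
  | cons a l ih =>
    have hs : Z P z (a :: l) k = (Z P z l k && opt P (Z P z l) a.1 a.2 k) := rfl
    rw [hs, Bool.and_eq_true] at hk
    exact ih hk.1

theorem path_mem (hP : Hyp P) {z : R} {δ : Ω} {p : ℕ → List (Ω × ℕ)} {i : ℕ → ℕ}
    (h : IsPath P z δ p i) {m : ℕ} (hr : Rich P (Z P z (p m)) (P.lad δ m)) :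
    ∃ k ≥ m, z k = true ∧ ee P δ (fun m => N P (P.lad δ m)) (xx P z δ p i) k = true := by
  obtain ⟨j, hjm, hd, ⟨k, hk1, hk2, hk3⟩, h1, h2, h3⟩ := h.step m hr
  have hjh : j ≤ P.h δ j := (hP.h_strict δ).le_apply
  have hjj : P.h δ j < P.h δ (j + 1) := hP.h_strict δ (Nat.lt_succ_self j)
  refine ⟨k, hjm.trans (hjh.trans hk1), Z_le (p m) hk3, ?_⟩
  unfold ee
  rw [if_pos h.lt]
  refine eset_true.2 ⟨j, hk1, hk2, ?_, ?_⟩
  · intro m1 _ hm1
    rcases lt_trichotomy m1 m with h4 | h4 | h4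
    · exact (hd m1 h4).trans (hjh.trans hjj.le)
    · subst h4
      exact h2
    · exact absurd (hm1 m h4) (not_le.2 h1)
  · intro m1 _ hm1
    have h4 : m1 < m := by
      by_contra hc
      exact absurd (hm1 m (not_lt.1 hc)) (not_le.2 h1)
    exact ⟨fun a ha => (KK_path h h4 ha).trans h3, Z_path h h4 hk3⟩

theorem path_hits (hP : Hyp P) {z : R} (hz : NH P z) (hinf : IsInf z) {δ : Ω}
    (hδ : GoodD P z δ) : ∃ x : ℕ → R, (∀ m, x m ∈ un (N P (P.lad δ m))) ∧
      Hit (ee P δ (fun m => N P (P.lad δ m)) x) z := by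
  obtain ⟨p, i, h⟩ := path_seq hP hz hinf hδ
  refine ⟨xx P z δ p i, fun m => ((optZ hP hz hinf (p m) (P.lad δ m)).1 (i m)).1, ?_⟩
  refine Set.infinite_of_forall_exists_gt fun n => ?_
  obtain ⟨m, hm, hr⟩ := path_rich hP hz hinf hδ h (n + 1)
  obtain ⟨k, hk, hzk, hek⟩ := path_mem hP h hr
  exact ⟨k, ⟨hek, hzk⟩, by omega⟩

theorem EE_maximal (hP : Hyp P) (z : R) (hz : IsInf z) : ∃ δ, ∃ e ∈ EE P δ, Hit e z := by
  by_contra hcon
  push Not at hcon
  have hNH : NH P z := fun ξ e he => not_hit.1 (hcon ξ e he)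
  obtain ⟨δ, hδ⟩ := exists_goodD hP hNH hz
  obtain ⟨x, hx, hhit⟩ := path_hits hP hNH hz hδ
  exact hcon δ _ ⟨hhit.inf_left, x, hx, rfl⟩ hhit

end Pool.Agent.H93.AB
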