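import Pool.Agent.H93.AB.Om

/-!
# SSeq: the splitting number and a splitting sequence

`sCard`: the least size of a splitting family.  The set in the definition is nonempty (the family of all sets: split
an infinite set into two infinite parts).  So there is a splitting family `F` with `#F = sCard ≤ ℵ₁`, nonempty, and
a surjection `s : Om → F`.  `#(Om × Om) = ℵ₁ = #Om` gives a bijection `q : Om ≃ Om × Om`.  `S η := s (q η).1`.
For `ζ` and `z` let `s ξ` split `z`.  The set `{η | (q η).1 = ξ}` has cardinality `ℵ₁`, it is not contained in the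
countable set `Iio ζ` (`Om_cntb`), so it has a member `η ≥ ζ`.
-/

namespace Pool.Agent.H93.AB

open Set

/-- `𝔰`: the least size of a splitting family. -/
noncomputable def sCard : Cardinal.{0} :=
  sInf {κ : Cardinal.{0} | ∃ F : Set (ℕ → Bool), Cardinal.mk F = κ ∧
    ∀ z : ℕ → Bool, {n | z n = true}.Infinite → ∃ s ∈ F,
      ({n | z n = true} ∩ {n | s n = true}).Infinite ∧
      ({n | z n = true} \ {n | s n = true}).Infinite}

theorem exists_S (hs : sCard ≤ Cardinal.aleph 1) :
    ∃ S : Om → R, ∀ (ζ : Om) (z : R), IsInf z →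
      ∃ η, ζ ≤ η ∧ Hit z (S η) ∧ (su z \ su (S η)).Infinite := by
  sorry

end Pool.Agent.H93.AB
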