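import Pool.Agent.H93.AB.Basic

/-!
# Trans: transfer of a mad family

`M` mad (infinite family of infinite sets, almost disjoint, maximal).  Choose distinct members `c n ∈ M`
(`hinf.natEmbedding`).  The sets `c' n := su (c n) \ ⋃_{m < n} su (c m)` are infinite and pairwise disjoint;
`u n` := an injection of `ℕ` onto (or into) `c' n` (`Nat.orderEmbeddingOfSet`).  So `(n, k) ↦ u n k` is injective.

`u_col`: `y ∈ M`, `y ≠ c n`: `su y ∩ su (c n)` is finite, `u n k ∈ su (c n)`, `u n` injective.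

`u_mad`: `z` infinite, `q : ℕ → ℕ` with `{k ∈ z | q k = n}` finite for all `n`.  `z' := {u (q k) k | k ∈ z}` is infinite
(`k ↦ u (q k) k` is injective).  `z' ∩ c' n = {u n k | k ∈ z, q k = n}` is finite, and `z' ⊆ ⋃ c' n`, so
`z' ∩ su (c n) ⊆ (z' ∩ c' n) ∪ ⋃_{m < n} (z' ∩ c' m)`.. is finite (an element `u m k` of `su (c n)` with
`m > n` is impossible by the definition of `c' m`; so `m ≤ n`).  Maximality: some `y ∈ M` has infinite intersection
with `z'`; `y ≠ c n` for all `n`, and `{k ∈ z | u (q k) k ∈ y}` is infinite.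
-/

namespace Pool.Agent.H93.AB

open Set

theorem exists_trans (M : Set R) (hinf : M.Infinite) (hI : ∀ x ∈ M, IsInf x)
    (hAD : ∀ x ∈ M, ∀ y ∈ M, x ≠ y → AD x y) (hmax : ∀ z, IsInf z → ∃ y ∈ M, Hit y z) :
    ∃ (c : ℕ → R) (u : ℕ → ℕ → ℕ), (∀ n k n' k', u n k = u n' k' → n = n' ∧ k = k') ∧
      (∀ y ∈ M, (∀ n, y ≠ c n) → ∀ n, {k | y (u n k) = true}.Finite) ∧
      (∀ (z : R) (q : ℕ → ℕ), IsInf z → (∀ n, {k | z k = true ∧ q k = n}.Finite) →
        ∃ y ∈ M, (∀ n, y ≠ c n) ∧ {k | z k = true ∧ y (u (q k) k) = true}.Infinite) := by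
  sorry

end Pool.Agent.H93.AB
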