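import Pool.Agent.H93.AB.EFam
import Pool.Agent.H93.AB.PHit
import Pool.Agent.H93.AB.Trans
import Pool.Agent.H93.AB.HSeq
import Pool.Agent.H93.AB.SSeq
import Pool.Agent.H93.AB.BSeq

/-! # Final: assembly -/

namespace Pool.Agent.H93.AB

open Set

open Pool.Agent.H60.AD in
theorem exists_hyp (hb : bCard ≤ Cardinal.aleph 1) (hs : sCard ≤ Cardinal.aleph 1)
    (ha : aBorel ≤ Cardinal.aleph 1) : ∃ P : Ctx Om, Hyp P := by
  obtain ⟨h, h1, h2, h3⟩ := exists_h hb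
  obtain ⟨S, hS⟩ := exists_S hs
  obtain ⟨B, b1, b2, b3⟩ := exists_B ha
  obtain ⟨lad, l1, l2, l3⟩ := exists_lad
  obtain ⟨cnt, hcnt⟩ := exists_cnt
  obtain ⟨c, u, u1, u2, u3⟩ := exists_trans (un B) b3 b1.inf b1.ad b2
  exact ⟨⟨lad, cnt, h, S, B, c, u⟩,
    { cntb := Om_cntb
      ub := Om_ub
      lad_lt := l1
      lad_mono := l2
      lad_cof := l3
      cnt_inj := hcnt
      h_strict := h1
      h_mono := h2
      h_unb := h3
      S_split := hS
      B_good := b1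
      B_max := b2
      B_inf := b3
      u_inj := u1
      u_col := u2
      u_mad := u3 }⟩

open Pool.Agent.H60.AD in
theorem unionMad_EE {Ω : Type} [LinearOrder Ω] [WellFoundedLT Ω] [Nonempty Ω] {P : Ctx Ω}
    (hP : Hyp P) : UnionMad (Set.range (EE P)) where
  infinite := by
    have h := EE_infinite hP (EE_maximal hP)
    have e : ⋃₀ Set.range (EE P) = {e | ∃ δ, e ∈ EE P δ} := by
      ext w
      simp
    rw [e]
    exact h
  mem_infinite := by
    rintro x ⟨_, ⟨δ, rfl⟩, hx⟩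
    exact hx.1
  almost_disjoint := by
    rintro x ⟨_, ⟨δ, rfl⟩, hx⟩ y ⟨_, ⟨δ', rfl⟩, hy⟩ hne
    exact EE_ad hP hx hy hne
  maximal := by
    intro z hz
    obtain ⟨δ, e, he, hh⟩ := EE_maximal hP z hz
    exact ⟨e, ⟨_, ⟨δ, rfl⟩, he⟩, hh⟩

open Pool.Agent.H60.AD in
theorem aClosed_le (hb : bCard ≤ Cardinal.aleph 1) (hs : sCard ≤ Cardinal.aleph 1)
    (ha : aBorel ≤ Cardinal.aleph 1) : aClosed ≤ Cardinal.aleph 1 := by
  obtain ⟨P, hP⟩ := exists_hyp hb hs ha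
  have h1 : aClosed ≤ Cardinal.mk (Set.range (EE P)) :=
    csInf_le' ⟨Set.range (EE P), rfl, by
      rintro _ ⟨δ, rfl⟩
      exact EE_closed hP δ, unionMad_EE hP⟩
  exact h1.trans (Cardinal.mk_range_le.trans mk_Om.le)

/-- If `𝔟 = 𝔰 = 𝔞_Borel = ℵ₁` then `𝔞_closed = ℵ₁`. -/
theorem main (hb : Pool.Agent.H60.AD.bCard ≤ Cardinal.aleph 1) (hs : sCard ≤ Cardinal.aleph 1) :
    Pool.Agent.H60.AD.aBorel = Cardinal.aleph 1 ↔ Pool.Agent.H60.AD.aClosed = Cardinal.aleph 1 := by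
  constructor
  · intro ha
    refine le_antisymm (aClosed_le hb hs ha.le) ?_
    rw [← ha]
    exact Pool.Agent.H60.AD.aBorel_le_aClosed
  · intro ha
    refine le_antisymm ?_ aleph1_le_aBorel
    rw [← ha]
    exact Pool.Agent.H60.AD.aBorel_le_aClosed

end Pool.Agent.H93.AB
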