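import Pool.Agent.H93.AB.Opt

/-!
# GGs: the function `GG`

`KK_mono`: induction on `p` (`Finset.sup_mono`, `Finset.range_mono`).
`GG_spec`: the set in the definition of `GG P z p ζ D r` is nonempty: take `i` from `hD r`, `k ≥ r` with
`Z P z p k = true` (`Z_props`: infinite), and `g` the maximum of `D (ind ..)`, `k + 1`, `KK P z p r`.
`Nat.sInf_mem`.
-/

namespace Pool.Agent.H93.AB

open Set

variable {Ω : Type} [LinearOrder Ω] [WellFoundedLT Ω] [Nonempty Ω] {P : Ctx Ω}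

theorem KK_mono (P : Ctx Ω) (z : R) (p : List (Ω × ℕ)) {i j : ℕ} (h : i ≤ j) :
    KK P z p i ≤ KK P z p j := by
  induction p with
  | nil => simp [KK]
  | cons a p ih =>
    simp only [KK]
    exact max_le_max ih (Finset.sup_mono (Finset.range_mono h))

theorem GG_spec (hP : Hyp P) {z : R} (hz : NH P z) (hinf : IsInf z) (p : List (Ω × ℕ)) (ζ : Ω)
    (D : Ω → ℕ) (hD : ∀ n, ∃ i, n < D (ind (N P ζ) (opt P (Z P z p) ζ i))) (r : ℕ) :
    (∃ i, r < D (ind (N P ζ) (opt P (Z P z p) ζ i)) ∧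
      D (ind (N P ζ) (opt P (Z P z p) ζ i)) ≤ GG P z p ζ D r) ∧
    (∃ k, r ≤ k ∧ k < GG P z p ζ D r ∧ Z P z p k = true) ∧ KK P z p r ≤ GG P z p ζ D r := by
  have hne : {g | (∃ i, r < D (ind (N P ζ) (opt P (Z P z p) ζ i)) ∧
      D (ind (N P ζ) (opt P (Z P z p) ζ i)) ≤ g) ∧
      (∃ k, r ≤ k ∧ k < g ∧ Z P z p k = true) ∧ KK P z p r ≤ g}.Nonempty := by
    obtain ⟨i, hi⟩ := hD r
    have h1 : (su (Z P z p)).Infinite := (Z_props hP hz hinf p).1
    obtain ⟨k, hk, hrk⟩ := h1.exists_gt r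
    refine ⟨max (D (ind (N P ζ) (opt P (Z P z p) ζ i))) (max (k + 1) (KK P z p r)),
      ⟨i, hi, le_max_left _ _⟩, ⟨k, hrk.le, ?_, hk⟩, ?_⟩
    · exact lt_of_lt_of_le (Nat.lt_succ_self k) ((le_max_left _ _).trans (le_max_right _ _))
    · exact (le_max_right _ _).trans (le_max_right _ _)
  exact Nat.sInf_mem hne

end Pool.Agent.H93.AB
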