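import Pool.Agent.H93.AB.Opt
import Pool.Agent.H93.AB.Esc

/-!
# GoodDE: good stages exist

`closure`: a closure argument.  `b : List (Ω × ℕ) → Ω → List Ω → Ω` is any function.  There is `δ` which is not
minimal, a limit, and closed under `b`: if all entries of `p` and `l` and `ζ` are below `δ` then `b p ζ l < δ`.
Proof: for `a : Ω` the set of all `(p, ζ, l)` with entries `< a` is countable (`Hyp.cntb`; lists over countable types
are countable: `p : List (Iio a × ℕ)`, mapped to `List (Ω × ℕ)`).  By `Hyp.ub` there is `s a > a` with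
`b p ζ l < s a` for all these.  Let `δ_0 = Classical.arbitrary`, `δ_{n+1} = s (δ_n)` and `δ` the least strict upper
bound of all `δ_n` (exists by `Hyp.ub`).  If `ζ < δ` then `ζ` is not a strict upper bound: `ζ ≤ δ_n < δ_{n+1} < δ` for
some `n` (limit).  A finite set of elements below `δ` is below some `δ_n` (`δ_n` is strictly increasing), so
`b p ζ l < δ_{n+1} < δ`.

`exists_goodD`: `b p ζ l` := the maximum (`max`) of: a `lam` with `Rich P (Z P z p) lam` (`exists_rich`, `Z_props`);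
a strict upper bound of all `ind (N P ζ) (opt P (Z P z p) ζ i)`, `i : ℕ` (`Hyp.ub`); the `δ0` of `exists_escape` for
`G = GG P z p ζ (DDl P.cnt l)`.
-/

namespace Pool.Agent.H93.AB

open Set

variable {Ω : Type} [LinearOrder Ω] [WellFoundedLT Ω] [Nonempty Ω] {P : Ctx Ω}

private theorem count_lists {α : Type} {s : Set α} (hs : s.Countable) :
    {l : List α | ∀ x ∈ l, x ∈ s}.Countable := by
  haveI : Countable s := hs.to_subtype
  rw [← Set.range_list_map_coe s]
  exact Set.countable_range _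

private theorem exists_next (hP : Hyp P) (b : List (Ω × ℕ) → Ω → List Ω → Ω) (a : Ω) :
    ∃ c : Ω, a < c ∧ ∀ p : List (Ω × ℕ), (∀ x ∈ p, x.1 < a) → ∀ ζ < a, ∀ l : List Ω,
      (∀ x ∈ l, x < a) → b p ζ l < c := by
  have h1 : {p : List (Ω × ℕ) | ∀ x ∈ p, x ∈ {y : Ω × ℕ | y.1 < a}}.Countable := by
    apply count_lists
    have : {y : Ω × ℕ | y.1 < a} = Set.Iio a ×ˢ (Set.univ : Set ℕ) := by
      ext y
      simp
    rw [this]
    exact (hP.cntb a).prod (Set.countable_univ)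
  have h2 : {l : List Ω | ∀ x ∈ l, x ∈ Set.Iio a}.Countable := count_lists (hP.cntb a)
  have h3 := (h1.prod ((hP.cntb a).prod h2)).image (fun q : List (Ω × ℕ) × Ω × List Ω =>
    b q.1 q.2.1 q.2.2)
  obtain ⟨c, hc⟩ := hP.ub _ (h3.insert a)
  refine ⟨c, hc a (Set.mem_insert _ _), ?_⟩
  intro p hp ζ hζ l hl
  apply hc
  refine Set.mem_insert_of_mem _ ⟨(p, ζ, l), ⟨?_, ?_, ?_⟩, rfl⟩
  · exact hp
  · exact hζ
  · exact hl

theorem closure_point (hP : Hyp P) (b : List (Ω × ℕ) → Ω → List Ω → Ω) :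
    ∃ δ : Ω, (∃ ζ, ζ < δ) ∧ (∀ ζ < δ, ∃ ζ' < δ, ζ < ζ') ∧
      ∀ p : List (Ω × ℕ), (∀ a ∈ p, a.1 < δ) → ∀ ζ < δ, ∀ l : List Ω, (∀ a ∈ l, a < δ) →
        b p ζ l < δ := by
  choose s hs1 hs2 using exists_next hP b
  let d : ℕ → Ω := fun n => s^[n] (Classical.arbitrary Ω)
  have hd : ∀ n, d (n + 1) = s (d n) := fun n => Function.iterate_succ_apply' s n _
  have hmono : StrictMono d := strictMono_nat_of_lt_succ fun n => by
    rw [hd]
    exact hs1 _
  obtain ⟨b0, hb0⟩ := hP.ub (Set.range d) (Set.countable_range d)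
  have hne : {c : Ω | ∀ n, d n < c}.Nonempty := ⟨b0, fun n => hb0 _ ⟨n, rfl⟩⟩
  let δ : Ω := (wellFounded_lt : WellFounded ((· < ·) : Ω → Ω → Prop)).min _ hne
  have hδ : ∀ n, d n < δ := (wellFounded_lt : WellFounded ((· < ·) : Ω → Ω → Prop)).min_mem _ hne
  have hlt : ∀ ζ < δ, ∃ n, ζ < d n := by
    intro ζ hζ
    by_contra hcon
    push Not at hcon
    refine (wellFounded_lt : WellFounded ((· < ·) : Ω → Ω → Prop)).not_lt_min
      {c : Ω | ∀ n, d n < c} (x := ζ) ?_ hζ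
    intro n
    exact lt_of_lt_of_le (hmono (Nat.lt_succ_self n)) (hcon (n + 1))
  have hlist : ∀ {α : Type} (f : α → Ω) (l : List α), (∀ x ∈ l, f x < δ) →
      ∃ n, ∀ x ∈ l, f x < d n := by
    intro α f l
    induction l with
    | nil => intro _; exact ⟨0, fun x hx => absurd hx List.not_mem_nil⟩
    | cons a l ih =>
      intro h
      obtain ⟨n1, h1⟩ := ih fun x hx => h x (List.mem_cons_of_mem _ hx)
      obtain ⟨n2, h2⟩ := hlt _ (h a List.mem_cons_self)
      refine ⟨max n1 n2, fun x hx => ?_⟩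
      rcases List.mem_cons.1 hx with rfl | hx
      · exact lt_of_lt_of_le h2 (hmono.monotone (le_max_right _ _))
      · exact lt_of_lt_of_le (h1 x hx) (hmono.monotone (le_max_left _ _))
  refine ⟨δ, ⟨d 0, hδ 0⟩, ?_, ?_⟩
  · intro ζ hζ
    obtain ⟨n, hn⟩ := hlt ζ hζ
    exact ⟨d n, hδ n, hn⟩
  · intro p hp ζ hζ l hl
    obtain ⟨n1, h1⟩ := hlist (fun x : Ω × ℕ => x.1) p hp
    obtain ⟨n2, h2⟩ := hlt ζ hζ
    obtain ⟨n3, h3⟩ := hlist (fun x : Ω => x) l hl
    have e1 : d n1 ≤ d (max n1 (max n2 n3)) := hmono.monotone (le_max_left _ _)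
    have e2 : d n2 ≤ d (max n1 (max n2 n3)) :=
      hmono.monotone (le_trans (le_max_left _ _) (le_max_right _ _))
    have e3 : d n3 ≤ d (max n1 (max n2 n3)) :=
      hmono.monotone (le_trans (le_max_right _ _) (le_max_right _ _))
    have h4 := hs2 (d (max n1 (max n2 n3))) p (fun x hx => lt_of_lt_of_le (h1 x hx) e1) ζ
      (lt_of_lt_of_le h2 e2) l (fun x hx => lt_of_lt_of_le (h3 x hx) e3)
    rw [← hd] at h4
    exact h4.trans (hδ _)

theorem exists_goodD (hP : Hyp P) {z : R} (hz : NH P z) (hinf : IsInf z) : ∃ δ, GoodD P z δ := by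
  have hlam : ∀ p : List (Ω × ℕ), ∃ lam, Rich P (Z P z p) lam := fun p =>
    exists_rich hP (Z_props hP hz hinf p).2.2 (Z_props hP hz hinf p).1
  choose lam hlam using hlam
  have hbd : ∀ (p : List (Ω × ℕ)) (ζ : Ω), ∃ β, ∀ i, ind (N P ζ) (opt P (Z P z p) ζ i) < β := by
    intro p ζ
    obtain ⟨β, hβ⟩ := hP.ub (Set.range fun i => ind (N P ζ) (opt P (Z P z p) ζ i))
      (Set.countable_range _)
    exact ⟨β, fun i => hβ _ ⟨i, rfl⟩⟩
  choose bd hbd using hbd
  have hesc : ∀ (p : List (Ω × ℕ)) (ζ : Ω) (l : List Ω), ∃ δ0, ∀ δ ≥ δ0, ∀ J, ∃ j ≥ J,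
      GG P z p ζ (DDl P.cnt l) (P.h δ j) ≤ P.h δ (j + 1) := fun p ζ l => exists_escape hP _
  choose esc hesc using hesc
  obtain ⟨δ, h1, h2, h3⟩ := closure_point hP fun p ζ l => max (max (lam p) (bd p ζ)) (esc p ζ l)
  refine ⟨δ, h1, h2, ?_, ?_, ?_⟩
  · intro p hp
    obtain ⟨ζ, hζ⟩ := h1
    refine ⟨lam p, ?_, hlam p⟩
    exact lt_of_le_of_lt ((le_max_left _ _).trans (le_max_left _ _))
      (h3 p hp ζ hζ [] fun a ha => absurd ha List.not_mem_nil)
  · intro p hp ζ hζ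
    refine ⟨bd p ζ, ?_, fun i => (hbd p ζ i).le⟩
    exact lt_of_le_of_lt ((le_max_right _ _).trans (le_max_left _ _))
      (h3 p hp ζ hζ [] fun a ha => absurd ha List.not_mem_nil)
  · intro p hp ζ hζ l hl J
    exact hesc p ζ l δ (le_of_lt (lt_of_le_of_lt (le_max_right _ _) (h3 p hp ζ hζ l hl))) J

end Pool.Agent.H93.AB
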