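import Pool.Agent.H93.AB.Basic

/-!
# Om: the well-order of type `ω₁`

`mk_Om`: `Cardinal.mk_ord_toType`.  `Om_cntb`: `Cardinal.mk_Iio_ord_toType` (`#(Iio a) < ℵ₁`), so `≤ ℵ₀`.
`Om_ub`: otherwise every `b` is `≤` some `a ∈ s`, so `univ = ⋃_{a ∈ s} Iic a` is countable, but `#Om = ℵ₁`.
`exists_lad`: if there is no `ζ < δ` take the constant `δ`.  Otherwise enumerate `Iio δ` as `a : ℕ → Om` (nonempty,
countable: `Set.Countable.exists_eq_range`) and take `lad δ m = max` of `a 0, ..., a m`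
(`partialSups a m`: monotone, `le_partialSups`, `< δ` by induction).
`exists_cnt`: `Iic ξ` is countable (`Iio ξ ∪ {ξ}`), `Set.countable_iff_exists_injOn`.
-/

namespace Pool.Agent.H93.AB

open Set

/-- The well-order of type `ω₁`. -/
abbrev Om : Type := (Cardinal.aleph 1).ord.ToType

instance : Nonempty Om := by
  refine (Cardinal.mk_ne_zero_iff).1 ?_
  rw [Cardinal.mk_ord_toType]
  exact (Cardinal.aleph_pos 1).ne'

theorem mk_Om : Cardinal.mk Om = Cardinal.aleph 1 := by
  rw [Cardinal.mk_ord_toType]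

theorem Om_cntb (a : Om) : (Set.Iio a).Countable := by
  have h : Cardinal.mk (Set.Iio a) < Cardinal.aleph 1 := Cardinal.mk_Iio_toType_ord_lt a
  rw [← Cardinal.le_aleph0_iff_set_countable]
  have h2 : Cardinal.aleph 1 = Order.succ Cardinal.aleph0 := by
    rw [← Cardinal.succ_aleph0]
  exact Order.lt_succ_iff.1 (lt_of_lt_of_eq h h2)

theorem Om_Iic_cntb (a : Om) : (Set.Iic a).Countable := by
  have h : Set.Iic a = Set.Iio a ∪ {a} := by
    ext x
    simp [le_iff_lt_or_eq]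
  rw [h]
  exact (Om_cntb a).union (Set.countable_singleton a)

theorem Om_ub (s : Set Om) (hs : s.Countable) : ∃ b, ∀ a ∈ s, a < b := by
  by_contra hcon
  push Not at hcon
  have h1 : (Set.univ : Set Om) ⊆ ⋃ a ∈ s, Set.Iic a := by
    intro b _
    obtain ⟨a, ha, hab⟩ := hcon b
    exact Set.mem_biUnion ha hab
  have h2 : (Set.univ : Set Om).Countable :=
    (hs.biUnion fun a _ => Om_Iic_cntb a).mono h1
  rw [← Cardinal.le_aleph0_iff_set_countable, Cardinal.mk_univ, mk_Om] at h2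
  exact absurd h2 (not_le.2 Cardinal.aleph0_lt_aleph_one)

theorem exists_lad : ∃ lad : Om → ℕ → Om, (∀ δ ζ, ζ < δ → ∀ m, lad δ m < δ) ∧
    (∀ δ, Monotone (lad δ)) ∧ ∀ δ ζ, ζ < δ → ∃ m, ζ ≤ lad δ m := by
  have key : ∀ δ : Om, ∃ l : ℕ → Om, (∀ ζ, ζ < δ → ∀ m, l m < δ) ∧ Monotone l ∧
      ∀ ζ, ζ < δ → ∃ m, ζ ≤ l m := by
    intro δ
    by_cases hne : (Set.Iio δ).Nonempty
    · obtain ⟨a, ha⟩ := (Om_cntb δ).exists_eq_range hne
      have hlt : ∀ n, a n < δ := fun n => by
        have : a n ∈ Set.Iio δ := by rw [ha]; exact ⟨n, rfl⟩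
        exact this
      refine ⟨fun m => partialSups a m, ?_, ?_, ?_⟩
      · intro ζ _ m
        induction m with
        | zero => simpa using hlt 0
        | succ m ih =>
          show partialSups a (m + 1) < δ
          rw [partialSups_add_one]
          exact max_lt ih (hlt (m + 1))
      · exact (partialSups a).monotone
      · intro ζ hζ
        have : ζ ∈ Set.range a := by rw [← ha]; exact hζ
        obtain ⟨m, rfl⟩ := this
        exact ⟨m, le_partialSups a m⟩
    · refine ⟨fun _ => δ, ?_, monotone_const, ?_⟩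
      · intro ζ hζ
        exact absurd ⟨ζ, hζ⟩ hne
      · intro ζ hζ
        exact absurd ⟨ζ, hζ⟩ hne
  choose lad h1 h2 h3 using key
  exact ⟨lad, fun δ ζ h m => h1 δ ζ h m, h2, fun δ ζ h => h3 δ ζ h⟩

theorem exists_cnt : ∃ cnt : Om → Om → ℕ, ∀ ξ, Set.InjOn (cnt ξ) (Set.Iic ξ) := by
  have key : ∀ ξ : Om, ∃ f : Om → ℕ, Set.InjOn f (Set.Iic ξ) := fun ξ =>
    Set.countable_iff_exists_injOn.1 (Om_Iic_cntb ξ)
  choose cnt h using key
  exact ⟨cnt, h⟩

end Pool.Agent.H93.AB
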