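import Pool.Agent.H93.AB.Rich
import Pool.Agent.H93.AB.NoMad

/-!
# Opt: the options

`unb`: if `Rich P v ζ` then infinitely many pieces of level `ζ` contain a member which meets `v`.  Otherwise let
`β_1, ..., β_r` (a finite set, written as a sequence `M : ℕ → Set R` of pieces) be the indices of these pieces.
`no_mad_below` gives an infinite `z ⊆ v` almost disjoint from all members of these pieces.  But `exists_hit` for
`z` gives a member `w ∈ un (N P ζ)` meeting `z`, so it meets `v` and is in one of these pieces.  Contradiction.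
(`Set.Infinite` of `{β | ∃ w ∈ N P ζ β, Hit w v}`.)

`exists_opt`: Case 1 `Rich P v ζ`: the set of indices of `unb` is infinite, take an injective sequence of indices
(`Set.Infinite.natEmbedding`) and members `o i`; `ind (N P ζ) (o i)` is this index (`ind_eq`).
Case 2 not `Rich P v ζ`: the set `H` of members of `un (N P ζ)` which meet `v` is finite, nonempty.  If no `lam`
has `Rich P v lam` take `o i = w` for any `w ∈ H`.  Otherwise let `lam0` be the least `lam` with `Rich P v lam`;
`ζ < lam0` (otherwise `rich_mono`).  Every one of the infinitely many members `w'` of `N P lam0` which meet `v` is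
`⊆*` some `x ∈ un (N P ζ)` (`ref`), `x` meets `v` (`AS.hit`), and `w'` meets `x ∩ v` (`AS.hit_mt`).  By the pigeonhole principle
there is `w ∈ H` such that `Rich P (mt v w) lam0`; `o i = w` for all `i`.  `rich_mono` for `mt v w` gives
`Rich P (mt v w) lam` for all `lam ≥ lam0`, in particular for all `lam` with `Rich P v lam`.

`Z_props`: induction on `p`.
-/

namespace Pool.Agent.H93.AB

open Set

variable {Ω : Type} [LinearOrder Ω] [WellFoundedLT Ω] [Nonempty Ω] {P : Ctx Ω}

theorem unb (hP : Hyp P) {v : R} (hv : NH P v) (hinf : IsInf v) {ζ : Ω} (h : Rich P v ζ) :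
    {β | ∃ w ∈ N P ζ β, Hit w v}.Infinite := by
  sorry

theorem exists_opt (hP : Hyp P) {v : R} (hv : NH P v) (hinf : IsInf v) (ζ : Ω) :
    ∃ o, OptSpec P v ζ o := by
  sorry

theorem optSpec (hP : Hyp P) {v : R} (hv : NH P v) (hinf : IsInf v) (ζ : Ω) :
    OptSpec P v ζ (opt P v ζ) := by
  unfold opt
  rw [dif_pos (exists_opt hP hv hinf ζ)]
  exact (exists_opt hP hv hinf ζ).choose_spec

theorem Z_props (hP : Hyp P) {z : R} (hz : NH P z) (hinf : IsInf z) (p : List (Ω × ℕ)) :
    IsInf (Z P z p) ∧ su (Z P z p) ⊆ su z ∧ NH P (Z P z p) := by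
  sorry

theorem optZ (hP : Hyp P) {z : R} (hz : NH P z) (hinf : IsInf z) (p : List (Ω × ℕ)) (ζ : Ω) :
    OptSpec P (Z P z p) ζ (opt P (Z P z p) ζ) :=
  optSpec hP (Z_props hP hz hinf p).2.2 (Z_props hP hz hinf p).1 ζ

end Pool.Agent.H93.AB
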