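import Pool.Agent.H93.AB.PStep

/-!
# PSeq: the path along the ladder of `δ`

`path_seq`: recursion.  State `(p_m, J_m)` with all entries of `p_m` below `δ` (a subtype); `p_0 = []`, `J_0 = 0`;
`i_m` from `path_step` for `p_m`, `ζ = lad δ m` (`< δ` by `Hyp.lad_lt`, `hδ.ne`), `J = max J_m m`;
`p_{m+1} = (lad δ m, i_m) :: p_m`, `J_{m+1} = max J_m (DD (ind x_m))`.  So `J_m ≥ DD (ind x_{m'})` for `m' < m`.

`path_rich`: suppose `Rich P (Z P z (p m')) (lad δ m')` fails for all `m' ≥ m`.  `hδ.rich (p m)` gives `lam < δ`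
with `Rich P (Z P z (p m)) lam`; by the third clause of `OptSpec` (`optZ`) it is preserved: `Rich P (Z P z (p m')) lam`
for all `m' ≥ m` (`Z P z (p (m'+1)) = mt (Z P z (p m')) (opt ..)` by definition).  Choose `m' ≥ m` with
`lam ≤ lad δ m'` (`Hyp.lad_cof`, `Hyp.lad_mono`); `rich_mono` gives a contradiction.
-/

namespace Pool.Agent.H93.AB

open Set

variable {Ω : Type} [LinearOrder Ω] [WellFoundedLT Ω] [Nonempty Ω] {P : Ctx Ω}

/-- the `m`-th member of the path -/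
noncomputable def xx (P : Ctx Ω) (z : R) (δ : Ω) (p : ℕ → List (Ω × ℕ)) (i : ℕ → ℕ) (m : ℕ) : R :=
  opt P (Z P z (p m)) (P.lad δ m) (i m)

/-- the number of the `m`-th member of the path -/
noncomputable def dd (P : Ctx Ω) (z : R) (δ : Ω) (p : ℕ → List (Ω × ℕ)) (i : ℕ → ℕ) (m : ℕ) : ℕ :=
  DD P.cnt (P.lad δ) (ind (N P (P.lad δ m)) (xx P z δ p i m))

/-- `p`, `i` describe a path along the ladder of `δ` -/
structure IsPath (P : Ctx Ω) (z : R) (δ : Ω) (p : ℕ → List (Ω × ℕ)) (i : ℕ → ℕ) : Prop where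
  zero : p 0 = []
  succ : ∀ m, p (m + 1) = (P.lad δ m, i m) :: p m
  lt : ∀ m, ind (N P (P.lad δ m)) (xx P z δ p i m) < δ
  step : ∀ m, Rich P (Z P z (p m)) (P.lad δ m) → ∃ j ≥ m, (∀ m' < m, dd P z δ p i m' ≤ j) ∧
    (∃ k, P.h δ j ≤ k ∧ k < P.h δ (j + 1) ∧ Z P z (p m) k = true) ∧
    j < dd P z δ p i m ∧ dd P z δ p i m ≤ P.h δ (j + 1) ∧ KK P z (p m) j ≤ P.h δ (j + 1)

theorem path_seq (hP : Hyp P) {z : R} (hz : NH P z) (hinf : IsInf z) {δ : Ω}
    (hδ : GoodD P z δ) : ∃ p i, IsPath P z δ p i := by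
  obtain ⟨ζ0, hζ0⟩ := hδ.ne
  have hlt : ∀ m, P.lad δ m < δ := fun m => hP.lad_lt δ ζ0 hζ0 m
  have hs := fun (m : ℕ) (q : {q : List (Ω × ℕ) // ∀ a ∈ q, a.1 < δ}) (J : ℕ) =>
    path_step hP hz hinf hδ q.1 q.2 (hlt m) J
  choose I hI1 hI2 using hs
  let nx : ℕ → ({q : List (Ω × ℕ) // ∀ a ∈ q, a.1 < δ} × ℕ) →
      ({q : List (Ω × ℕ) // ∀ a ∈ q, a.1 < δ} × ℕ) :=
    fun m s => (⟨(P.lad δ m, I m s.1 (max s.2 m)) :: s.1.1, by
        intro a ha
        rcases List.mem_cons.1 ha with rfl | ha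
        · exact hlt m
        · exact s.1.2 a ha⟩,
      max s.2 (DD P.cnt (P.lad δ) (ind (N P (P.lad δ m))
        (opt P (Z P z s.1.1) (P.lad δ m) (I m s.1 (max s.2 m))))))
  let s : ℕ → ({q : List (Ω × ℕ) // ∀ a ∈ q, a.1 < δ} × ℕ) := fun n =>
    Nat.rec (⟨[], by simp⟩, 0) nx n
  have hss : ∀ m, s (m + 1) = nx m (s m) := fun m => rfl
  let p : ℕ → List (Ω × ℕ) := fun m => (s m).1.1
  let i : ℕ → ℕ := fun m => I m (s m).1 (max (s m).2 m)
  have hJ : ∀ m m', m' < m → dd P z δ p i m' ≤ (s m).2 := by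
    intro m
    induction m with
    | zero =>
      intro m' hm'
      exact absurd hm' (Nat.not_lt_zero _)
    | succ m ih =>
      intro m' hm'
      rw [hss]
      rcases Nat.lt_succ_iff_lt_or_eq.1 hm' with h1 | h1
      · exact (ih m' h1).trans (le_max_left _ _)
      · subst h1
        exact le_max_right _ _
  refine ⟨p, i, rfl, fun m => rfl, fun m => hI1 m (s m).1 _, fun m hr => ?_⟩
  obtain ⟨j, hj, hk, h1, h2, h3⟩ := hI2 m (s m).1 (max (s m).2 m) hr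
  exact ⟨j, (le_max_right _ _).trans hj,
    fun m' hm' => (hJ m m' hm').trans ((le_max_left _ _).trans hj), hk, h1, h2, h3⟩

theorem path_entries (hP : Hyp P) {z : R} {δ : Ω} (hδ : GoodD P z δ) {p : ℕ → List (Ω × ℕ)}
    {i : ℕ → ℕ} (h : IsPath P z δ p i) (m : ℕ) : ∀ a ∈ p m, a.1 < δ := by
  obtain ⟨ζ0, hζ0⟩ := hδ.ne
  induction m with
  | zero =>
    rw [h.zero]
    intro a ha
    exact absurd ha List.not_mem_nil
  | succ m ih =>
    rw [h.succ]
    intro a ha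
    rcases List.mem_cons.1 ha with rfl | ha
    · exact hP.lad_lt δ ζ0 hζ0 m
    · exact ih a ha

theorem path_rich (hP : Hyp P) {z : R} (hz : NH P z) (hinf : IsInf z) {δ : Ω}
    (hδ : GoodD P z δ) {p : ℕ → List (Ω × ℕ)} {i : ℕ → ℕ} (h : IsPath P z δ p i) (m : ℕ) :
    ∃ m' ≥ m, Rich P (Z P z (p m')) (P.lad δ m') := by
  by_contra hcon
  push Not at hcon
  obtain ⟨lam, hlam, hR⟩ := hδ.rich (p m) (path_entries hP hδ h m)
  have hall : ∀ m', m ≤ m' → Rich P (Z P z (p m')) lam := by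
    intro m' hm'
    induction m', hm' using Nat.le_induction with
    | base => exact hR
    | succ m' hm' ih =>
      have h1 := (optZ hP hz hinf (p m') (P.lad δ m')).2.2 (hcon m' hm') (i m') lam ih
      rw [h.succ]
      exact h1
  obtain ⟨K, hK⟩ := hP.lad_cof δ lam hlam
  refine hcon (max m K) (le_max_left _ _) ?_
  exact rich_mono hP (Z_props hP hz hinf (p (max m K))).2.2
    (hK.trans (hP.lad_mono δ (le_max_right m K))) (hall _ (le_max_left _ _))

end Pool.Agent.H93.AB
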