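import Pool.Agent.H93.AB.GGs
import Pool.Agent.H93.AB.GoodDE
import Pool.Agent.H93.AB.DDfin

/-!
# PStep: one step of the path

`hδ.bd p hp ζ hζ` gives `β < δ` with `ind (..) ≤ β` for all options `i`; so the indices are `< δ`.  If not
`Rich P (Z P z p) ζ` take `i = 0`.  Assume `Rich`.  `K` with `β ≤ lad δ K` (`Hyp.lad_cof`),
`l = (List.range (K + 1)).map (P.lad δ)`, entries `< δ` (`Hyp.lad_lt`, `hδ.ne`), `D = DDl P.cnt l`; `DDl_eq`:
`D = DD P.cnt (P.lad δ)` on all indices of options.  The indices of the options are pairwise different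
(`(optZ ..).2.1`) and `< δ`, and `DD` is finite-to-one there (`DD_finite`): so `∀ n, ∃ i, n < D (ind ..)`.
`hδ.esc` gives `j ≥ J` with `GG P z p ζ D (h δ j) ≤ h δ (j+1)`, and `GG_spec` for `r = h δ j` gives `i` and `k`.
`j ≤ h δ j` (`StrictMono.le_apply`) and `KK_mono`.
-/

namespace Pool.Agent.H93.AB

open Set

variable {Ω : Type} [LinearOrder Ω] [WellFoundedLT Ω] [Nonempty Ω] {P : Ctx Ω}

theorem path_step (hP : Hyp P) {z : R} (hz : NH P z) (hinf : IsInf z) {δ : Ω} (hδ : GoodD P z δ)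
    (p : List (Ω × ℕ)) (hp : ∀ a ∈ p, a.1 < δ) {ζ : Ω} (hζ : ζ < δ) (J : ℕ) :
    ∃ i : ℕ, ind (N P ζ) (opt P (Z P z p) ζ i) < δ ∧
      (Rich P (Z P z p) ζ → ∃ j ≥ J,
        (∃ k, P.h δ j ≤ k ∧ k < P.h δ (j + 1) ∧ Z P z p k = true) ∧
        j < DD P.cnt (P.lad δ) (ind (N P ζ) (opt P (Z P z p) ζ i)) ∧
        DD P.cnt (P.lad δ) (ind (N P ζ) (opt P (Z P z p) ζ i)) ≤ P.h δ (j + 1) ∧
        KK P z p j ≤ P.h δ (j + 1)) := by
  obtain ⟨β, hβδ, hβ⟩ := hδ.bd p hp ζ hζ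
  by_cases hr : Rich P (Z P z p) ζ
  swap
  · exact ⟨0, (hβ 0).trans_lt hβδ, fun h => absurd h hr⟩
  obtain ⟨K, hK⟩ := hP.lad_cof δ β hβδ
  have hl : ∀ a ∈ (List.range (K + 1)).map (P.lad δ), a < δ := by
    intro a ha
    obtain ⟨m, _, rfl⟩ := List.mem_map.1 ha
    exact hP.lad_lt δ ζ hζ m
  have hD : ∀ i, DDl P.cnt ((List.range (K + 1)).map (P.lad δ))
      (ind (N P ζ) (opt P (Z P z p) ζ i)) =
      DD P.cnt (P.lad δ) (ind (N P ζ) (opt P (Z P z p) ζ i)) :=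
    fun i => DDl_eq P.cnt (P.lad δ) K ((hβ i).trans hK)
  have hinj := (optZ hP hz hinf p ζ).2.1 hr
  have hunb : ∀ n, ∃ i, n < DDl P.cnt ((List.range (K + 1)).map (P.lad δ))
      (ind (N P ζ) (opt P (Z P z p) ζ i)) := by
    intro n
    by_contra hcon
    push Not at hcon
    refine Set.infinite_range_of_injective hinj ((DD_finite hP δ n).subset ?_)
    rintro _ ⟨i, rfl⟩
    refine ⟨(hβ i).trans_lt hβδ, ?_⟩
    have := hcon i
    rw [hD i] at this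
    exact this
  obtain ⟨j, hjJ, hj⟩ := hδ.esc p hp ζ hζ _ hl J
  obtain ⟨⟨i, hi1, hi2⟩, ⟨k, hk1, hk2, hk3⟩, hKK⟩ :=
    GG_spec hP hz hinf p ζ (DDl P.cnt ((List.range (K + 1)).map (P.lad δ))) hunb (P.h δ j)
  have hjh : j ≤ P.h δ j := (hP.h_strict δ).le_apply
  refine ⟨i, (hβ i).trans_lt hβδ, fun _ => ⟨j, hjJ, ⟨k, hk1, hk2.trans_le hj, hk3⟩, ?_, ?_, ?_⟩⟩
  · rw [← hD i]
    exact hjh.trans_lt hi1
  · rw [← hD i]
    exact hi2.trans hj
  · exact (KK_mono P z p hjh).trans (hKK.trans hj)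

end Pool.Agent.H93.AB
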