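import Pool.Agent.H93.AB.Lev

/-!
# Rich: many members below a set

`NH P z`: `z` is almost disjoint from all members of the new family.  `Rich P v lam`: infinitely many members of
level `lam` meet `v` in an infinite set.

`exists_hit`: `dens` of `inv`.
`exists_finer`: if `w ∈ un (N P lam)` meets `v` and `lam ≤ lam'` then some `w' ∈ un (N P lam')` meets `v` and is
`⊆* w`: by `exists_hit` for `mt w v` at `lam'` (`lam < lam'`) there is `w'` with `Hit w' (mt w v)`; by `ref`,
`w' ⊆* x ∈ un (N P lam)`, `w'` meets `w`, so `x = w` (`GoodLev.eq_of_hit`).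
`rich_mono`: the map `w ↦ w'` of `exists_finer` is injective (`GoodLev.unique`).
`exists_rich`: suppose `Rich P v lam` fails for all `lam`: the set `H lam` of members of `N P lam` which meet `v` is
finite (and nonempty).  Claim: for every `n` there is `lam` with at least `n` members in `H lam`.  Induction:
given `lam` with `n ≥ 1` members, take `w1 ∈ H lam` and (`Hyp.S_split` for `mt w1 v`) `η ≥ lam` such that
`w1 ∩ v ∩ S η` and `w1 ∩ v \ S η` are infinite, and `lam' > η` (`Hyp.ub`).  At `lam'` there are members hitting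
`w1 ∩ v ∩ S η` resp. `w1 ∩ v \ S η` (`exists_hit`), they are different by `uns`, both are `⊆* w1` (as in
`exists_finer`); the other `w ∈ H lam` have finer members too (`exists_finer`), all different.  So `H lam'` has at
least `n + 1` members.  By `Hyp.ub` there is `lam* ≥` all these `lam`; by `exists_finer` `H lam*` has at least `n`
members for every `n` (injection as in `rich_mono`), so it is infinite.
Use `Set.encard` or: `∀ n, ∃ s : Finset R, s.card = n ∧ ↑s ⊆ H lam`.
-/

namespace Pool.Agent.H93.AB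

open Set

variable {Ω : Type} [LinearOrder Ω] [WellFoundedLT Ω] [Nonempty Ω] {P : Ctx Ω}

theorem NH.mono {z v : R} (h : NH P z) (hv : su v ⊆ su z) : NH P v :=
  fun ξ e he => (h ξ e he).mono_right hv

theorem exists_hit (hP : Hyp P) {v : R} (hv : NH P v) (hinf : IsInf v) (δ : Ω) :
    ∃ w ∈ un (N P δ), Hit w v :=
  (inv hP δ).dens v hinf fun ξ _ e he => hv ξ e he

theorem exists_finer (hP : Hyp P) {v : R} (hv : NH P v) {lam lam' : Ω} (hl : lam ≤ lam') {w : R}
    (hw : w ∈ un (N P lam)) (hh : Hit w v) : ∃ w' ∈ un (N P lam'), Hit w' v ∧ AS w' w := by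
  rcases eq_or_lt_of_le hl with h | h
  · subst h
    exact ⟨w, hw, hh, AS.refl w⟩
  · have hsub : su (mt w v) ⊆ su v := by rw [su_mt]; exact inter_subset_right
    have hsub' : su (mt w v) ⊆ su w := by rw [su_mt]; exact inter_subset_left
    obtain ⟨w', hw', hh'⟩ := exists_hit hP (hv.mono hsub) (isInf_mt.2 hh) lam'
    obtain ⟨x, hx, hwx⟩ := (inv hP lam').ref lam h w' hw'
    have he : w = x := (inv hP lam).good.eq_of_hit hw hx (hh'.mono_right hsub') hwx
    refine ⟨w', hw', hh'.mono_right hsub, ?_⟩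
    rw [he]
    exact hwx

/-- a set which is hit below the member `w` -/
private theorem rich_below (hP : Hyp P) {lam lam' : Ω} (hl : lam < lam') {w u z : R}
    (hw : w ∈ un (N P lam)) (hu : u ∈ un (N P lam')) (hz : su z ⊆ su w) (hh : Hit u z) :
    AS u w := by
  obtain ⟨x, hx, hux⟩ := (inv hP lam').ref lam hl u hu
  have he : w = x := (inv hP lam).good.eq_of_hit hw hx (hh.mono_right hz) hux
  rw [he]
  exact hux

private theorem rich_map (hP : Hyp P) {v : R} (hv : NH P v) {lam lam' : Ω} (hl : lam ≤ lam') :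
    ∃ f : R → R, (∀ w ∈ {w | w ∈ un (N P lam) ∧ Hit w v},
        f w ∈ {w | w ∈ un (N P lam') ∧ Hit w v} ∧ AS (f w) w) ∧
      Set.InjOn f {w | w ∈ un (N P lam) ∧ Hit w v} := by
  classical
  have h1 : ∀ w : R, ∃ w' : R, w ∈ {w | w ∈ un (N P lam) ∧ Hit w v} →
      (w' ∈ {w | w ∈ un (N P lam') ∧ Hit w v} ∧ AS w' w) := by
    intro w
    by_cases hw : w ∈ {w | w ∈ un (N P lam) ∧ Hit w v}
    · obtain ⟨w', h2, h3, h4⟩ := exists_finer hP hv hl hw.1 hw.2
      exact ⟨w', fun _ => ⟨⟨h2, h3⟩, h4⟩⟩
    · exact ⟨w, fun h => absurd h hw⟩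
  choose f hf using h1
  refine ⟨f, fun w hw => hf w hw, ?_⟩
  intro a ha b hb hab
  obtain ⟨h2, h3⟩ := hf a ha
  obtain ⟨_, h5⟩ := hf b hb
  rw [← hab] at h5
  exact (inv hP lam).good.unique ha.1 hb.1 ((inv hP lam').good.inf _ h2.1) h3 h5

theorem rich_mono (hP : Hyp P) {v : R} (hv : NH P v) {lam lam' : Ω} (hl : lam ≤ lam')
    (h : Rich P v lam) : Rich P v lam' := by
  obtain ⟨f, hf, hinj⟩ := rich_map hP hv hl
  exact Set.infinite_of_injOn_mapsTo hinj (fun w hw => (hf w hw).1) h

theorem exists_rich (hP : Hyp P) {v : R} (hv : NH P v) (hinf : IsInf v) : ∃ lam, Rich P v lam := by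
  classical
  by_contra hcon
  push Not at hcon
  have hfin : ∀ lam, ({w | w ∈ un (N P lam) ∧ Hit w v} : Set R).Finite := by
    intro lam
    exact Set.not_infinite.1 (hcon lam)
  have hstep : ∀ n : ℕ, ∃ lam, n ≤ ({w | w ∈ un (N P lam) ∧ Hit w v} : Set R).ncard := by
    intro n
    induction n with
    | zero => exact ⟨Classical.arbitrary Ω, Nat.zero_le _⟩
    | succ n ih =>
      obtain ⟨lam, hlam⟩ := ih
      -- a member at level `lam`
      obtain ⟨w1, hw1, hh1⟩ := exists_hit hP hv hinf lam
      obtain ⟨η, hη, hs1, hs2⟩ := hP.S_split lam (mt w1 v) (isInf_mt.2 hh1)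
      obtain ⟨lam', hlam'⟩ := hP.ub {η} (Set.countable_singleton η)
      have hηl : η < lam' := hlam' η rfl
      have hll : lam < lam' := lt_of_le_of_lt hη hηl
      have hmv : su (mt w1 v) ⊆ su v := by rw [su_mt]; exact inter_subset_right
      have hmw : su (mt w1 v) ⊆ su w1 := by rw [su_mt]; exact inter_subset_left
      set z1 : R := mt (mt w1 v) (P.S η) with hz1
      set z2 : R := fun n => mt w1 v n && !(P.S η n) with hz2
      have hz1s : su z1 ⊆ su (mt w1 v) := by rw [hz1, su_mt (mt w1 v)]; exact inter_subset_left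
      have hz2e : su z2 = su (mt w1 v) \ su (P.S η) := by
        ext k
        simp [su, hz2]
      have hz2s : su z2 ⊆ su (mt w1 v) := by rw [hz2e]; exact sdiff_subset
      have hz1i : IsInf z1 := isInf_mt.2 hs1
      have hz2i : IsInf z2 := by unfold IsInf; rw [hz2e]; exact hs2
      obtain ⟨u1, hu1, hhu1⟩ := exists_hit hP (hv.mono (hz1s.trans hmv)) hz1i lam'
      obtain ⟨u2, hu2, hhu2⟩ := exists_hit hP (hv.mono (hz2s.trans hmv)) hz2i lam'
      have hne : u1 ≠ u2 := by
        intro he
        subst he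
        rcases (inv hP lam').uns η hηl u1 hu1 with h | h
        · refine hhu1 (h.subset ?_)
          apply Set.inter_subset_inter_right
          rw [hz1, su_mt (mt w1 v)]
          exact inter_subset_right
        · refine hhu2 (h.subset ?_)
          rw [hz2e]
          intro k hk
          exact ⟨hk.1, hk.2.2⟩
      have ha1 : AS u1 w1 := rich_below hP hll hw1 hu1 (hz1s.trans hmw) hhu1
      have ha2 : AS u2 w1 := rich_below hP hll hw1 hu2 (hz2s.trans hmw) hhu2
      obtain ⟨f, hf, hinj⟩ := rich_map hP hv hll.le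
      set A : Set R := {w | w ∈ un (N P lam) ∧ Hit w v} with hA
      set A' : Set R := {w | w ∈ un (N P lam') ∧ Hit w v} with hA'
      have hw1A : w1 ∈ A := ⟨hw1, hh1⟩
      have hu1A : u1 ∈ A' := ⟨hu1, hhu1.mono_right (hz1s.trans hmv)⟩
      have hu2A : u2 ∈ A' := ⟨hu2, hhu2.mono_right (hz2s.trans hmv)⟩
      set C : Set R := f '' (A \ {w1}) with hC
      have hnot : ∀ u ∈ un (N P lam'), AS u w1 → u ∉ C := by
        rintro u hu hau ⟨w, ⟨hwA, hw⟩, rfl⟩
        have h2 := (hf w hwA).2
        exact hw ((inv hP lam).good.unique hwA.1 hw1 ((inv hP lam').good.inf _ hu) h2 hau)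
      have hCfin : C.Finite := ((hfin lam).subset sdiff_subset).image f
      have hCcard : C.ncard = (A \ {w1}).ncard :=
        (hinj.mono sdiff_subset).ncard_image
      have hAcard : (A \ {w1}).ncard + 1 = A.ncard :=
        Set.ncard_sdiff_singleton_add_one hw1A (hfin lam)
      have h2 : (insert u2 C).ncard = C.ncard + 1 :=
        Set.ncard_insert_of_notMem (hnot u2 hu2 ha2) hCfin
      have h1 : (insert u1 (insert u2 C)).ncard = (insert u2 C).ncard + 1 := by
        refine Set.ncard_insert_of_notMem ?_ (hCfin.insert u2)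
        rintro (h | h)
        · exact hne h
        · exact hnot u1 hu1 ha1 h
      have hsub : insert u1 (insert u2 C) ⊆ A' := by
        rintro u (rfl | rfl | ⟨w, hw, rfl⟩)
        · exact hu1A
        · exact hu2A
        · exact (hf w hw.1).1
      have h3 := Set.ncard_le_ncard hsub (hfin lam')
      refine ⟨lam', ?_⟩
      change n + 1 ≤ A'.ncard
      omega
  choose g hg using hstep
  obtain ⟨b, hb⟩ := hP.ub (Set.range g) (Set.countable_range g)
  set k := ({w | w ∈ un (N P b) ∧ Hit w v} : Set R).ncard with hk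
  obtain ⟨f, hf, hinj⟩ := rich_map hP hv (hb (g (k + 1)) ⟨k + 1, rfl⟩).le
  have h1 := Set.ncard_le_ncard_of_injOn f (fun w hw => (hf w hw).1) hinj (hfin b)
  have h2 := hg (k + 1)
  omega

end Pool.Agent.H93.AB
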