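import Pool.Agent.H93.AB.StepMem

/-!
# StepAD: different parameters give almost disjoint members

If `x m ≠ x' m` for some `m`: `w ⊆* x m`, `w' ⊆* x' m` (`ww_sub`), and `x m`, `x' m` are almost disjoint
(`GoodLev.ad`).  Otherwise `x = x'`.  If `t m ≠ t' m`: `w ⊆* tm .. t m`, `w' ⊆* tm .. t' m` (`ww_sub_tm`), disjoint
(`tm_disj`).  Otherwise `t = t'` and `y ≠ y'` are almost disjoint (`B_good.ad`): `wset_ad`.
Hence `ww_inj`: equal infinite members have equal parameters.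

`good_step`: the level `step P δ L` without measurability: disjoint pieces (equal parameters, both indices are
the least `β` with `InT P L β x y`), infinite members, almost disjoint.
-/

namespace Pool.Agent.H93.AB

open Set

variable {Ω : Type} [LinearOrder Ω] [WellFoundedLT Ω] [Nonempty Ω] {P : Ctx Ω}

theorem ww_ad (hP : Hyp P) (δ : Ω) {L : ℕ → Ω → Set R} (hL : ∀ m, GoodLev (L m))
    {x x' : ℕ → R} {t t' : ℕ → Bool} {y y' : R} (hx : ∀ m, x m ∈ un (L m))
    (hx' : ∀ m, x' m ∈ un (L m)) (hy : y ∈ un P.B) (hc : ∀ n, y ≠ P.c n) (hy' : y' ∈ un P.B)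
    (hc' : ∀ n, y' ≠ P.c n) (hne : ¬ (x = x' ∧ t = t' ∧ y = y')) :
    AD (ww P δ L x t y) (ww P δ L x' t' y') := by
  by_cases hxx : x = x'
  · subst hxx
    by_cases htt : t = t'
    · subst htt
      have hyy : y ≠ y' := fun h => hne ⟨rfl, rfl, h⟩
      exact wset_ad hP.u_inj (hP.B_good.ad y hy y' hy' hyy)
    · obtain ⟨m, hm⟩ : ∃ m, t m ≠ t' m := by
        by_contra hcon
        push Not at hcon
        exact htt (funext hcon)
      have h1 := ww_sub_tm hP δ L x t hy hc m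
      have h2 := ww_sub_tm hP δ L x t' hy' hc' m
      have h3 : AD (tm (fun m => P.S (P.lad δ m)) x t m) (tm (fun m => P.S (P.lad δ m)) x t' m) := by
        unfold AD
        rw [tm_disj _ x hm]
        exact Set.finite_empty
      exact (h2.ad (h1.ad h3).symm).symm
  · obtain ⟨m, hm⟩ : ∃ m, x m ≠ x' m := by
      by_contra hcon
      push Not at hcon
      exact hxx (funext hcon)
    have h1 := ww_sub hP δ L x t hy hc m
    have h2 := ww_sub hP δ L x' t' hy' hc' m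
    have h3 : AD (x m) (x' m) := (hL m).ad _ (hx m) _ (hx' m) hm
    exact (h2.ad (h1.ad h3).symm).symm

theorem ww_inj (hP : Hyp P) (δ : Ω) {L : ℕ → Ω → Set R} (hL : ∀ m, GoodLev (L m))
    {x x' : ℕ → R} {t t' : ℕ → Bool} {y y' : R} (hx : ∀ m, x m ∈ un (L m))
    (hx' : ∀ m, x' m ∈ un (L m)) (hy : y ∈ un P.B) (hc : ∀ n, y ≠ P.c n) (hy' : y' ∈ un P.B)
    (hc' : ∀ n, y' ≠ P.c n) (hinf : IsInf (ww P δ L x t y))
    (heq : ww P δ L x t y = ww P δ L x' t' y') : x = x' ∧ t = t' ∧ y = y' := by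
  by_contra hcon
  have h := ww_ad hP δ hL hx hx' hy hc hy' hc' hcon
  rw [← heq] at h
  unfold AD at h
  rw [Set.inter_self] at h
  exact hinf h

theorem step_disj (hP : Hyp P) (δ : Ω) {L : ℕ → Ω → Set R} (hL : ∀ m, GoodLev (L m)) {β β' : Ω}
    {w : R} (h : w ∈ step P δ L β) (h' : w ∈ step P δ L β') : β = β' := by
  obtain ⟨hinf, x, t, y, hI, hmin, hw⟩ := h
  obtain ⟨_, x', t', y', hI', hmin', hw'⟩ := h'
  have e := ww_inj hP δ hL (x := x) (x' := x') (t := t) (t' := t') (y := y) (y' := y')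
    (fun m => by
      obtain ⟨b, _, hb⟩ := hI.1 m
      exact ⟨b, hb⟩)
    (fun m => by
      obtain ⟨b, _, hb⟩ := hI'.1 m
      exact ⟨b, hb⟩)
    (by
      obtain ⟨b, _, hb⟩ := hI.2.1
      exact ⟨b, hb⟩) hI.2.2
    (by
      obtain ⟨b, _, hb⟩ := hI'.2.1
      exact ⟨b, hb⟩) hI'.2.2
    (hw ▸ hinf) (hw.symm.trans hw')
  obtain ⟨e1, e2, e3⟩ := e
  subst e1
  subst e3
  rcases lt_trichotomy β β' with hlt | heq | hlt
  · exact absurd hI (hmin' β hlt)
  · exact heq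
  · exact absurd hI' (hmin β' hlt)

theorem step_ad (hP : Hyp P) (δ : Ω) {L : ℕ → Ω → Set R} (hL : ∀ m, GoodLev (L m)) {w w' : R}
    (h : w ∈ un (step P δ L)) (h' : w' ∈ un (step P δ L)) (hne : w ≠ w') : AD w w' := by
  rw [mem_un_step hP] at h h'
  obtain ⟨_, x, t, y, hx, hy, hc, hw⟩ := h
  obtain ⟨_, x', t', y', hx', hy', hc', hw'⟩ := h'
  rw [hw, hw']
  refine ww_ad hP δ hL hx hx' hy hc hy' hc' ?_
  rintro ⟨rfl, rfl, rfl⟩
  exact hne (hw.trans hw'.symm)

end Pool.Agent.H93.AB
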