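import Pool.Agent.H93.AB.Code
import Pool.Agent.H93.AB.StepAD

/-!
# StepBorel: the pieces of `step P δ L` are Borel

Let `X = (ℕ → R) × (ℕ → Bool) × R` (standard Borel), `β : Ω`,
`D = {p | InT P L β p.1 p.2.2 ∧ ∀ β' < β, ¬ InT P L β' p.1 p.2.2}`.

`meas_InT`: `{p | InT P L β' p.1 p.2.2}` is measurable: `Iic β'` is countable (`Hyp.cntb`), so
`∃ β'' ≤ β', p.1 m ∈ L m β''` is a countable union of measurable sets; `y ≠ c n` is measurable (points).
So `D` is measurable (countable intersection over `Iio β`).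

Measurable functions on the subtype `↥D`: put the σ-algebra `⊤` on `Ω`.  For `p ∈ D` the point `p.1 m` is in `L m β''`
for one `β'' ≤ β`, and `ind (L m) (p.1 m) = β''` (`ind_eq`).  So
`{p : ↥D | ind (L m) (p.1 m) ∈ A} = ⋃_{β'' ≤ β, β'' ∈ A} {p | p.1 m ∈ L m β''}` is measurable for every `A`
(`meas_ind`; here for `Ω` with its `⊤` σ-algebra written as preimages of all sets `A`).  In the same way
`{p : ↥D | kap (L m) (p.1 m) i = n} = ⋃_{β'' ≤ β} {p | p.1 m ∈ L m β'' ∧ Kap (L m β'') (p.1 m) i = n}`, measurable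
by `isCode_Kap (exists_isCode ..)).1` (`measurable_pi_iff`).  Hence `p ↦ ee P δ L p.1` is measurable on `↥D`
(`measurable_eset`, the condition `∀ m, ind .. < δ` is measurable by `meas_ind`; `Measurable.ite`), and
`p ↦ ww P δ L p.1 p.2.1 p.2.2` is measurable on `↥D` (`measurable_wset`).

Let `D' = {p ∈ D | IsInf (ww ..)}`, measurable (`IsInf w` iff `∀ n, ∃ k ≥ n, w k = true`).
`step P δ L β` is the range of `ww` on `↥D'`, an injective (`ww_inj`) measurable function on a standard Borel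
space (`MeasurableSet.standardBorel`, `Measurable.measurableEmbedding`, `MeasurableEmbedding.measurableSet_range`).
-/

namespace Pool.Agent.H93.AB

open Set

variable {Ω : Type} [LinearOrder Ω] [WellFoundedLT Ω] [Nonempty Ω] {P : Ctx Ω}

theorem countable_Iic_of_hyp (hP : Hyp P) (β : Ω) : (Set.Iic β).Countable := by
  refine ((hP.cntb β).insert β).mono ?_
  intro x hx
  rcases lt_or_eq_of_le (show x ≤ β from hx) with h | h
  · exact Or.inr h
  · exact Or.inl h

theorem meas_InT (hP : Hyp P) {L : ℕ → Ω → Set R} (hL : ∀ m, GoodLev (L m)) (β : Ω) :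
    MeasurableSet {p : (ℕ → R) × (ℕ → Bool) × R | InT P L β p.1 p.2.2} := by
  have h1 : MeasurableSet {p : (ℕ → R) × (ℕ → Bool) × R | ∀ m, ∃ β' ≤ β, p.1 m ∈ L m β'} := by
    have he : {p : (ℕ → R) × (ℕ → Bool) × R | ∀ m, ∃ β' ≤ β, p.1 m ∈ L m β'} =
        ⋂ m, ⋃ β' ∈ Set.Iic β, (fun p : (ℕ → R) × (ℕ → Bool) × R => p.1 m) ⁻¹' (L m β') := by
      ext p
      simp only [mem_setOf_eq, mem_iInter, mem_iUnion, mem_preimage, mem_Iic, exists_prop]
    rw [he]
    refine MeasurableSet.iInter fun m => MeasurableSet.biUnion (countable_Iic_of_hyp hP β) ?_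
    intro β' _
    exact ((measurable_pi_apply m).comp measurable_fst) ((hL m).meas β')
  have h2 : MeasurableSet {p : (ℕ → R) × (ℕ → Bool) × R | ∃ α ≤ β, p.2.2 ∈ P.B α} := by
    have he : {p : (ℕ → R) × (ℕ → Bool) × R | ∃ α ≤ β, p.2.2 ∈ P.B α} =
        ⋃ α ∈ Set.Iic β, (fun p : (ℕ → R) × (ℕ → Bool) × R => p.2.2) ⁻¹' (P.B α) := by
      ext p
      simp only [mem_setOf_eq, mem_iUnion, mem_preimage, mem_Iic, exists_prop]
    rw [he]
    refine MeasurableSet.biUnion (countable_Iic_of_hyp hP β) ?_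
    intro α _
    exact (measurable_snd.comp measurable_snd) (hP.B_good.meas α)
  have h3 : MeasurableSet {p : (ℕ → R) × (ℕ → Bool) × R | ∀ n, p.2.2 ≠ P.c n} := by
    have he : {p : (ℕ → R) × (ℕ → Bool) × R | ∀ n, p.2.2 ≠ P.c n} =
        ⋂ n, (fun p : (ℕ → R) × (ℕ → Bool) × R => p.2.2) ⁻¹' ({P.c n}ᶜ) := by
      ext p
      simp only [mem_setOf_eq, mem_iInter, mem_preimage, mem_compl_iff, mem_singleton_iff, ne_eq]
    rw [he]
    refine MeasurableSet.iInter fun n => ?_
    exact (measurable_snd.comp measurable_snd) (measurableSet_singleton (P.c n)).compl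
  exact h1.inter (h2.inter h3)

/-- The parameters with indices at most `β`. -/
abbrev QQ (P : Ctx Ω) (L : ℕ → Ω → Set R) (β : Ω) : Type :=
  {p : (ℕ → R) × (ℕ → Bool) × R // InT P L β p.1 p.2.2}

theorem meas_coord (P : Ctx Ω) (L : ℕ → Ω → Set R) (β : Ω) (m : ℕ) :
    Measurable fun p : QQ P L β => p.1.1 m :=
  (measurable_pi_apply m).comp (measurable_fst.comp measurable_subtype_coe)

theorem meas_ind (hP : Hyp P) {L : ℕ → Ω → Set R} (hL : ∀ m, GoodLev (L m)) (β : Ω) (m : ℕ)
    (A : Set Ω) : MeasurableSet {p : QQ P L β | ind (L m) (p.1.1 m) ∈ A} := by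
  have he : {p : QQ P L β | ind (L m) (p.1.1 m) ∈ A} =
      ⋃ β' ∈ Set.Iic β ∩ A, (fun p : QQ P L β => p.1.1 m) ⁻¹' (L m β') := by
    ext p
    simp only [mem_setOf_eq, mem_iUnion, mem_preimage, mem_inter_iff, mem_Iic, exists_prop]
    constructor
    · intro h
      obtain ⟨β', hβ', hm⟩ := p.2.1 m
      have hi : ind (L m) (p.1.1 m) = β' := ind_eq (hL m) hm
      exact ⟨β', ⟨hβ', hi ▸ h⟩, hm⟩
    · rintro ⟨β', ⟨_, hA⟩, hm⟩
      have hi : ind (L m) (p.1.1 m) = β' := ind_eq (hL m) hm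
      rw [hi]
      exact hA
  rw [he]
  refine MeasurableSet.biUnion ((countable_Iic_of_hyp hP β).mono inter_subset_left) ?_
  intro β' _
  exact meas_coord P L β m ((hL m).meas β')

theorem meas_kap (hP : Hyp P) {L : ℕ → Ω → Set R} (hL : ∀ m, GoodLev (L m)) (β : Ω) (m i : ℕ) :
    Measurable fun p : QQ P L β => kap (L m) (p.1.1 m) i := by
  refine measurable_to_countable' fun n => ?_
  have he : (fun p : QQ P L β => kap (L m) (p.1.1 m) i) ⁻¹' {n} =
      ⋃ β' ∈ Set.Iic β, (fun p : QQ P L β => p.1.1 m) ⁻¹'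
        (L m β' ∩ (fun x => Kap (L m β') x i) ⁻¹' {n}) := by
    ext p
    simp only [mem_iUnion, mem_preimage, mem_inter_iff, mem_Iic, exists_prop, mem_singleton_iff]
    constructor
    · intro h
      obtain ⟨β', hβ', hm⟩ := p.2.1 m
      have hi : ind (L m) (p.1.1 m) = β' := ind_eq (hL m) hm
      refine ⟨β', hβ', hm, ?_⟩
      rw [← h]
      unfold kap
      rw [hi]
    · rintro ⟨β', _, hm, hk⟩
      have hi : ind (L m) (p.1.1 m) = β' := ind_eq (hL m) hm
      unfold kap
      rw [hi]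
      exact hk
  rw [he]
  refine MeasurableSet.biUnion (countable_Iic_of_hyp hP β) ?_
  intro β' _
  refine meas_coord P L β m (((hL m).meas β').inter ?_)
  have h1 : Measurable (Kap (L m β')) := (isCode_Kap (exists_isCode ((hL m).meas β'))).1
  exact ((measurable_pi_apply i).comp h1) (measurableSet_singleton n)

theorem meas_ee (hP : Hyp P) (δ : Ω) {L : ℕ → Ω → Set R} (hL : ∀ m, GoodLev (L m)) (β : Ω) :
    Measurable fun p : QQ P L β => ee P δ L p.1.1 := by
  unfold ee
  refine Measurable.ite ?_ ?_ measurable_const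
  · have he : {p : QQ P L β | ∀ m, ind (L m) (p.1.1 m) < δ} =
        ⋂ m, {p : QQ P L β | ind (L m) (p.1.1 m) ∈ Set.Iio δ} := by
      ext p
      simp only [mem_setOf_eq, mem_iInter, mem_Iio]
    rw [he]
    exact MeasurableSet.iInter fun m => meas_ind hP hL β m _
  · refine measurable_eset (P.h δ) ?_ ?_ ?_
    · intro m
      refine measurable_to_countable' fun c => ?_
      exact meas_ind hP hL β m ((DD P.cnt (P.lad δ)) ⁻¹' {c})
    · intro m i
      exact meas_kap hP hL β m i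
    · intro m k
      exact (measurable_pi_apply k).comp (meas_coord P L β m)

theorem meas_ww (hP : Hyp P) (δ : Ω) {L : ℕ → Ω → Set R} (hL : ∀ m, GoodLev (L m)) (β : Ω) :
    Measurable fun p : {p : (ℕ → R) × (ℕ → Bool) × R // InT P L β p.1 p.2.2} =>
      ww P δ L p.1.1 p.1.2.1 p.1.2.2 := by
  unfold ww
  refine measurable_wset ?_ ?_ ?_
  · intro k
    exact (measurable_pi_apply k).comp (meas_ee hP δ hL β)
  · intro m k
    have hx : Measurable fun p : QQ P L β => p.1.1 m k :=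
      (measurable_pi_apply k).comp (meas_coord P L β m)
    have ht : Measurable fun p : QQ P L β => p.1.2.1 m :=
      (measurable_pi_apply m).comp
        (measurable_fst.comp (measurable_snd.comp measurable_subtype_coe))
    have hg : Measurable fun q : Bool × Bool => (q.1 && (P.S (P.lad δ m) k == q.2)) :=
      measurable_of_countable _
    exact hg.comp (hx.prodMk ht)
  · intro k
    exact (measurable_pi_apply k).comp
      (measurable_snd.comp (measurable_snd.comp measurable_subtype_coe))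

theorem meas_isInf : MeasurableSet {w : R | IsInf w} := by
  have he : {w : R | IsInf w} = ⋂ n : ℕ, ⋃ k ∈ Set.Ioi n, (fun w : R => w k) ⁻¹' {true} := by
    ext w
    simp only [mem_setOf_eq, mem_iInter, mem_iUnion, mem_preimage, mem_singleton_iff, mem_Ioi,
      exists_prop]
    constructor
    · intro h n
      obtain ⟨k, hk, hn⟩ := Set.Infinite.exists_gt h n
      exact ⟨k, hn, hk⟩
    · intro h
      refine Set.infinite_of_not_bddAbove ?_
      rintro ⟨n, hn⟩
      obtain ⟨k, hk, hw⟩ := h n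
      exact absurd (hn (show k ∈ su w from hw)) (not_le.2 hk)
  rw [he]
  refine MeasurableSet.iInter fun n => MeasurableSet.biUnion (Set.to_countable _) fun k _ => ?_
  exact (measurable_pi_apply k) (measurableSet_singleton true)

theorem meas_step (hP : Hyp P) (δ : Ω) {L : ℕ → Ω → Set R} (hL : ∀ m, GoodLev (L m)) (β : Ω) :
    MeasurableSet (step P δ L β) := by
  have hQ : MeasurableSet {p : (ℕ → R) × (ℕ → Bool) × R | InT P L β p.1 p.2.2} :=
    meas_InT hP hL β
  haveI : StandardBorelSpace (QQ P L β) := hQ.standardBorel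
  have hf : Measurable fun p : QQ P L β => ww P δ L p.1.1 p.1.2.1 p.1.2.2 := meas_ww hP δ hL β
  have hs1 : MeasurableSet {p : QQ P L β | ∀ β' < β, ¬ InT P L β' p.1.1 p.1.2.2} := by
    have he : {p : QQ P L β | ∀ β' < β, ¬ InT P L β' p.1.1 p.1.2.2} =
        ⋂ β' ∈ Set.Iio β, (Subtype.val : QQ P L β → (ℕ → R) × (ℕ → Bool) × R) ⁻¹'
          {p : (ℕ → R) × (ℕ → Bool) × R | InT P L β' p.1 p.2.2}ᶜ := by
      ext p
      simp only [mem_setOf_eq, mem_iInter, mem_preimage, mem_compl_iff, mem_Iio]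
    rw [he]
    refine MeasurableSet.biInter (hP.cntb β) ?_
    intro β' _
    exact measurable_subtype_coe (meas_InT hP hL β').compl
  have hs2 : MeasurableSet {p : QQ P L β | IsInf (ww P δ L p.1.1 p.1.2.1 p.1.2.2)} :=
    hf meas_isInf
  have himg := MeasurableSet.image_of_measurable_injOn (hs1.inter hs2) hf (by
    rintro p ⟨_, hp2⟩ p' ⟨_, _⟩ heq
    have hinj := ww_inj hP δ hL (x := p.1.1) (x' := p'.1.1) (t := p.1.2.1) (t' := p'.1.2.1)
      (y := p.1.2.2) (y' := p'.1.2.2)
      (fun m => by obtain ⟨β', _, h⟩ := p.2.1 m; exact ⟨β', h⟩)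
      (fun m => by obtain ⟨β', _, h⟩ := p'.2.1 m; exact ⟨β', h⟩)
      (by obtain ⟨α, _, h⟩ := p.2.2.1; exact ⟨α, h⟩) p.2.2.2
      (by obtain ⟨α, _, h⟩ := p'.2.2.1; exact ⟨α, h⟩) p'.2.2.2 hp2 heq
    exact Subtype.ext (Prod.ext hinj.1 (Prod.ext hinj.2.1 hinj.2.2)))
  have he : step P δ L β = (fun p : QQ P L β => ww P δ L p.1.1 p.1.2.1 p.1.2.2) ''
      ({p : QQ P L β | ∀ β' < β, ¬ InT P L β' p.1.1 p.1.2.2} ∩
        {p : QQ P L β | IsInf (ww P δ L p.1.1 p.1.2.1 p.1.2.2)}) := by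
    ext w
    constructor
    · rintro ⟨hinf, x, t, y, hin, hmin, hw⟩
      refine ⟨⟨(x, t, y), hin⟩, ⟨hmin, ?_⟩, hw.symm⟩
      show IsInf (ww P δ L x t y)
      rw [← hw]
      exact hinf
    · rintro ⟨p, ⟨hmin, hinf⟩, rfl⟩
      exact ⟨hinf, p.1.1, p.1.2.1, p.1.2.2, p.2, hmin, rfl⟩
  rw [he]
  exact himg

end Pool.Agent.H93.AB
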