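import Pool.Agent.H93.AB.Basic

/-!
# WSet: elementary properties of `wset`

`col e T k = 0` if `k ∈ e`, otherwise `1 +` the least `m` with `k ≤ m` or `k ∉ T m`.
`wset u e T y = {k | y (u (col e T k) k)}`.

* `wset_ad_e`: `w ∩ e ⊆ {k | y (u 0 k)}`.
* `wset_sub`: `k ∈ w \ T m` has `col ≤ m + 1` (`Nat.find_min'`), so it is in `⋃_{n ≤ m+1} {k | y (u n k)}`.
* `wset_ad`: `k ↦ u (col e T k) k` is injective and maps `w ∩ w'` (same `e`, `T`) into `su y ∩ su y'`.
* `cols_finite`: column `0` is `⊆ z ∩ e`; column `m + 1`: `k ≤ m` or `k ∉ T m` (`Nat.find_spec`), finite.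
* `tm_sub`, `tm_disj`: clear.
* `measurable_wset`: coordinate `k`: `y a (u (col (e a) (T a) k) k)`; `a ↦ col (e a) (T a) k` is measurable into
  `ℕ` (it depends only on `e a k` and `T a m k`, `m ≤ k`; e.g. `{a | col .. k = n}` is a boolean combination;
  or `Nat.find` measurable: `measurable_find`), then `{a | y a (u (col ..) k) = true} = ⋃ n, {col = n} ∩
  {a | y a (u n k) = true}`.
-/

namespace Pool.Agent.H93.AB

open Set

variable {u : ℕ → ℕ → ℕ} {e y y' : R} {T : ℕ → R}

theorem wset_ad_e (hy : ∀ n, {k | y (u n k) = true}.Finite) : AD (wset u e T y) e := by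
  sorry

theorem wset_sub (hy : ∀ n, {k | y (u n k) = true}.Finite) (m : ℕ) : AS (wset u e T y) (T m) := by
  sorry

theorem wset_ad (hu : ∀ n k n' k', u n k = u n' k' → n = n' ∧ k = k') (h : AD y y') :
    AD (wset u e T y) (wset u e T y') := by
  sorry

theorem cols_finite {z : R} (he : AD z e) (hT : ∀ m, AS z (T m)) (n : ℕ) :
    {k | z k = true ∧ col e T k = n}.Finite := by
  sorry

theorem tm_sub (S : ℕ → R) (x : ℕ → R) (t : ℕ → Bool) (m : ℕ) : su (tm S x t m) ⊆ su (x m) := by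
  sorry

theorem tm_side (S : ℕ → R) (x : ℕ → R) (t : ℕ → Bool) (m : ℕ) :
    (su (tm S x t m) ⊆ su (S m)) ∨ (su (tm S x t m) ∩ su (S m) = ∅) := by
  sorry

theorem tm_disj (S : ℕ → R) (x : ℕ → R) {t t' : ℕ → Bool} {m : ℕ} (h : t m ≠ t' m) :
    su (tm S x t m) ∩ su (tm S x t' m) = ∅ := by
  sorry

theorem measurable_wset {α : Type} [MeasurableSpace α] {e : α → R} {T : α → ℕ → R} {y : α → R}
    (he : ∀ k, Measurable fun a => e a k) (hT : ∀ m k, Measurable fun a => T a m k)
    (hy : ∀ k, Measurable fun a => y a k) : Measurable fun a => wset u (e a) (T a) (y a) := by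
  sorry

end Pool.Agent.H93.AB
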