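import Pool.Agent.H93.AB.ESet
import Pool.Agent.H93.AB.WSet

/-!
# StepMem: members of the level `step P δ L`

`L : ℕ → Ω → Set R` are levels, `ww P δ L x t y = wset P.u (ee P δ L x) (tm (S (lad δ m))_m x t) y`.

`mem_un_step`: from left to right drop the index.  From right to left: the indices `β_m` with
`x m ∈ L m β_m` and `α` with `y ∈ P.B α` form a countable set, so (`Hyp.ub`) there is `β` with `InT P L β x y`; take
the least such `β` (`WellFounded.min` or `wellFounded_lt.has_min`).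
`ww_sub_tm`, `ww_ad_e`: `wset_sub`, `wset_ad_e` with `Hyp.u_col`.
`ww_sub`: with `tm_sub`.  `ww_uns`: with `tm_side`.
`ee_sub`: `ee` is `eset ..` (`eset_sub`, `Hyp.h_strict`) or the empty set.
-/

namespace Pool.Agent.H93.AB

open Set

variable {Ω : Type} [LinearOrder Ω] [WellFoundedLT Ω] [Nonempty Ω] {P : Ctx Ω}

theorem mem_un_step (hP : Hyp P) (δ : Ω) (L : ℕ → Ω → Set R) (w : R) :
    w ∈ un (step P δ L) ↔ IsInf w ∧ ∃ (x : ℕ → R) (t : ℕ → Bool) (y : R), (∀ m, x m ∈ un (L m)) ∧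
      y ∈ un P.B ∧ (∀ n, y ≠ P.c n) ∧ w = ww P δ L x t y := by
  constructor
  · rintro ⟨β, hinf, x, t, y, ⟨h1, h2, h3⟩, _, hw⟩
    refine ⟨hinf, x, t, y, fun m => ?_, ?_, h3, hw⟩
    · obtain ⟨β', _, h⟩ := h1 m
      exact ⟨β', h⟩
    · obtain ⟨α, _, h⟩ := h2
      exact ⟨α, h⟩
  · rintro ⟨hinf, x, t, y, h1, h2, h3, hw⟩
    choose b hb using h1
    obtain ⟨α, hα⟩ := h2
    obtain ⟨c, hc⟩ := hP.ub (insert α (Set.range b)) ((Set.countable_range b).insert α)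
    have hT : InT P L c x y :=
      ⟨fun m => ⟨b m, (hc (b m) (Set.mem_insert_of_mem _ ⟨m, rfl⟩)).le, hb m⟩,
        ⟨α, (hc α (Set.mem_insert _ _)).le, hα⟩, h3⟩
    obtain ⟨β, hβ, hmin⟩ := (wellFounded_lt : WellFounded ((· < ·) : Ω → Ω → Prop)).has_min
      {β | InT P L β x y} ⟨c, hT⟩
    exact ⟨β, hinf, x, t, y, hβ, fun β' hlt hI => hmin β' hI hlt, hw⟩

theorem ee_sub (hP : Hyp P) (δ : Ω) (L : ℕ → Ω → Set R) (x : ℕ → R) (m : ℕ) :
    AS (ee P δ L x) (x m) := by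
  unfold ee
  split_ifs
  · exact eset_sub (hP.h_strict δ) _ _ x m
  · refine AS.of_subset ?_
    intro k hk
    exact absurd hk (by simp [su])

theorem ww_sub_tm (hP : Hyp P) (δ : Ω) (L : ℕ → Ω → Set R) (x : ℕ → R) (t : ℕ → Bool) {y : R}
    (hy : y ∈ un P.B) (hc : ∀ n, y ≠ P.c n) (m : ℕ) :
    AS (ww P δ L x t y) (tm (fun m => P.S (P.lad δ m)) x t m) :=
  wset_sub (hP.u_col y hy hc) m

theorem ww_sub (hP : Hyp P) (δ : Ω) (L : ℕ → Ω → Set R) (x : ℕ → R) (t : ℕ → Bool) {y : R}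
    (hy : y ∈ un P.B) (hc : ∀ n, y ≠ P.c n) (m : ℕ) : AS (ww P δ L x t y) (x m) :=
  (ww_sub_tm hP δ L x t hy hc m).trans (AS.of_subset (tm_sub _ x t m))

theorem ww_uns (hP : Hyp P) (δ : Ω) (L : ℕ → Ω → Set R) (x : ℕ → R) (t : ℕ → Bool) {y : R}
    (hy : y ∈ un P.B) (hc : ∀ n, y ≠ P.c n) (m : ℕ) :
    (su (ww P δ L x t y) ∩ su (P.S (P.lad δ m))).Finite ∨
      (su (ww P δ L x t y) \ su (P.S (P.lad δ m))).Finite := by
  have h1 := ww_sub_tm hP δ L x t hy hc m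
  rcases tm_side (fun m => P.S (P.lad δ m)) x t m with h | h
  · exact Or.inr (h1.trans (AS.of_subset h))
  · left
    refine Set.Finite.subset h1 ?_
    rintro k ⟨hk, hk2⟩
    refine ⟨hk, fun hk3 => ?_⟩
    have h2 : k ∈ su (tm (fun m => P.S (P.lad δ m)) x t m) ∩ su (P.S (P.lad δ m)) := ⟨hk3, hk2⟩
    rw [h] at h2
    exact h2

theorem ww_ad_e (hP : Hyp P) (δ : Ω) (L : ℕ → Ω → Set R) (x : ℕ → R) (t : ℕ → Bool) {y : R}
    (hy : y ∈ un P.B) (hc : ∀ n, y ≠ P.c n) : AD (ww P δ L x t y) (ee P δ L x) :=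
  wset_ad_e (hP.u_col y hy hc)

end Pool.Agent.H93.AB
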